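import Pool.Agent.H234R3.Defs

/-!
Harmonic maps (in all charts), strictly convex functions, properties (i) and (ii) of a subset of a
Riemannian manifold.
-/

set_option autoImplicit false

open scoped Manifold ContDiff Topology
open Module

namespace Pool.Agent.H234R3

variable {E : Type*} [NormedAddCommGroup E] [NormedSpace ℝ E]
  {H : Type*} [TopologicalSpace H] {I : ModelWithCorners ℝ E H}
  {M : Type*} [TopologicalSpace M] [ChartedSpace H M] [IsManifold I ∞ M]
  {E' : Type*} [NormedAddCommGroup E'] [NormedSpace ℝ E']
  {H' : Type*} [TopologicalSpace H'] {J : ModelWithCorners ℝ E' H'}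
  {N : Type*} [TopologicalSpace N] [ChartedSpace H' N] [IsManifold J ∞ N]

/-- The map `φ` from `(M, g)` to `(N, h)` is harmonic: it is smooth and its tension field
`tr_g ∇dφ` vanishes, in all the charts of the two atlases: for every chart (at `x`) of `M`, every
point `y` of the image of this chart and every chart (at `p`) of `N` whose domain contains the image
under `φ` of the point with coordinates `y`, the tension field written in these two charts
vanishes at `y`. -/
def HarmonicInCharts (g : RMetric I M) (h : RMetric J N) (φ : M → N) : Prop :=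
  ContMDiff I J ∞ φ ∧ ∀ (x : M) (p : N) (y : E), y ∈ (extChartAt I x).target →
    φ ((extChartAt I x).symm y) ∈ (extChartAt J p).source →
    TensionZeroAt (chartCoeff g x) (chartCoeff h p) (inCharts I J φ x p) y

/-- The function `f` in the chart at `p`. -/
noncomputable def funInChart (J : ModelWithCorners ℝ E' H') (f : N → ℝ) (p : N) : E' → ℝ :=
  f ∘ (extChartAt J p).symm

/-- The Hessian `∇²F(a, a) = D²F(a, a) - DF(Γ(a, a))` at `y` of the function `F` is positive
definite, for the Riemannian metric with the coefficients `g`. -/
def HessPosAt (g : E → E → E → ℝ) (F : E → ℝ) (y : E) : Prop :=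
  ∃ Γ : E → E → E, IsChristoffel g y Γ ∧ ∀ a : E, a ≠ 0 → 0 < dd F y a - der F y (Γ a a)

/-- The function `f` is strictly convex on the open subset `U` of `(N, h)`: it is `C^2` on `U` and
its Hessian is positive definite at every point `p` of `U` (written in the chart at `p`). -/
def IsStrictlyConvexOn (h : RMetric J N) (U : Set N) (f : N → ℝ) : Prop :=
  ContMDiffOn J 𝓘(ℝ, ℝ) 2 f U ∧
    ∀ p ∈ U, HessPosAt (chartCoeff h p) (funInChart J f p) (extChartAt J p p)

/-- Property (i): there is a strictly convex function on an open neighbourhood of `V`. -/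
def PropertyOne (h : RMetric J N) (V : Set N) : Prop :=
  ∃ (U : Set N) (f : N → ℝ), IsOpen U ∧ V ⊆ U ∧ IsStrictlyConvexOn h U f

/-- Property (ii): every harmonic map `φ` from a closed (compact, connected, without boundary)
Riemannian manifold `(M, g)` to `(N, h)` with values in `V` is constant. -/
def PropertyTwo (h : RMetric J N) (V : Set N) : Prop :=
  ∀ (m : ℕ) (M : Type) [TopologicalSpace M] [ChartedSpace (EuclideanSpace ℝ (Fin m)) M]
    [IsManifold (𝓡 m) ∞ M] [T2Space M] [CompactSpace M] [ConnectedSpace M]
    (g : RMetric (𝓡 m) M) (φ : M → N), HarmonicInCharts g h φ → (∀ x, φ x ∈ V) →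
    ∃ p : N, ∀ x, φ x = p

end Pool.Agent.H234R3
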