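import Mathlib

/-!
Harmonic maps, geodesics and convex functions on smooth Riemannian manifolds, in local coordinates.
-/

set_option autoImplicit false

open scoped Manifold ContDiff Topology
open Module

namespace Pool.Agent.H234R3

section Local

variable {E : Type*} [NormedAddCommGroup E] [NormedSpace ℝ E]
  {F : Type*} [NormedAddCommGroup F] [NormedSpace ℝ F]

/-- The derivative of `U` at the point `y` in the direction `a`. -/
noncomputable def der (U : E → F) (y a : E) : F := fderiv ℝ U y a

/-- The second derivative of `U` at the point `y` in the direction `a`. -/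
noncomputable def dd (U : E → F) (y a : E) : F :=
  deriv (deriv fun t : ℝ => U (y + t • a)) 0

/-- Christoffel symbols of the first kind of the metric with the coefficients `g z a b`, where `z`
is the point and `a`, `b` are vectors of the model space (Koszul formula for constant vector fields
`a`, `b`, `c`): the value `g(∇_a b, c)` at the point `y`. -/
noncomputable def koszul (g : E → E → E → ℝ) (y a b c : E) : ℝ :=
  (der (fun z => g z b c) y a + der (fun z => g z a c) y b - der (fun z => g z a b) y c) / 2

/-- `Γ` is the Christoffel symbol, at the point `y`, of the metric with coefficients `g`: the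
value `Γ a b` is `∇_a b` for the Levi-Civita connection `∇` of `g` and the constant vector fields
`a`, `b`. -/
def IsChristoffel (g : E → E → E → ℝ) (y : E) (Γ : E → E → E) : Prop :=
  ∀ a b c, g y (Γ a b) c = koszul g y a b c

/-- The second fundamental form `(∇dU)(a, a) = D²U(a, a) - DU(Γ(a, a)) + Γ'(DU a, DU a)` at `y`
of the map `U`, where `Γ` and `Γ'` are the Christoffel symbols of the source at `y` and of the
target at `U y`. -/
noncomputable def nablaD (Γ : E → E → E) (Γ' : F → F → F) (U : E → F) (y a : E) : F :=
  dd U y a - der U y (Γ a a) + Γ' (der U y a) (der U y a)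

/-- The tension field `τ(U) = tr_g ∇dU` of the map `U`, from the metric `g` to the metric `h`,
vanishes at the point `y`. The trace is computed in a `g`-orthonormal basis `e` at `y`. -/
def TensionZeroAt (g : E → E → E → ℝ) (h : F → F → F → ℝ) (U : E → F) (y : E) : Prop :=
  ∃ (Γ : E → E → E) (Γ' : F → F → F) (e : Basis (Fin (finrank ℝ E)) ℝ E),
    IsChristoffel g y Γ ∧ IsChristoffel h (U y) Γ' ∧
    (∀ i j, g y (e i) (e j) = if i = j then 1 else 0) ∧
    ∑ i, nablaD Γ Γ' U y (e i) = 0

end Local

section Mfd

variable {E : Type*} [NormedAddCommGroup E] [NormedSpace ℝ E]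
  {H : Type*} [TopologicalSpace H] {I : ModelWithCorners ℝ E H}
  {M : Type*} [TopologicalSpace M] [ChartedSpace H M] [IsManifold I ∞ M]
  {E' : Type*} [NormedAddCommGroup E'] [NormedSpace ℝ E']
  {H' : Type*} [TopologicalSpace H'] {J : ModelWithCorners ℝ E' H'}
  {N : Type*} [TopologicalSpace N] [ChartedSpace H' N] [IsManifold J ∞ N]

variable (I M) in
/-- The smooth Riemannian metrics on the manifold `M`. -/
abbrev RMetric : Type _ :=
  Bundle.ContMDiffRiemannianMetric I ∞ E (fun x : M => TangentSpace I x)

/-- The scalar product on the tangent space at the point `p` of the manifold (the tangent spaces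
are copies of the model space `E`). -/
noncomputable def RMetric.form (g : RMetric I M) (p : M) : E →L[ℝ] E →L[ℝ] ℝ :=
  g.inner p

/-- The differential, at the point `y` of the model space, of the inverse of the chart at `x`. -/
noncomputable def dchart (I : ModelWithCorners ℝ E H) (x : M) (y : E) : E →L[ℝ] E :=
  mfderiv 𝓘(ℝ, E) I (extChartAt I x).symm y

/-- The coefficients of the Riemannian metric `g` in the chart at `x`: the value on the coordinate
vector fields `a`, `b` at the point `y` of the model space (in the image of the chart). -/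
noncomputable def chartCoeff (g : RMetric I M) (x : M) (y a b : E) : ℝ :=
  g.form ((extChartAt I x).symm y) (dchart I x y a) (dchart I x y b)

variable (I J) in
/-- The map `φ` in the charts at `x` and `p`. -/
noncomputable def inCharts (φ : M → N) (x : M) (p : N) : E → E' :=
  extChartAt J p ∘ φ ∘ (extChartAt I x).symm

/-- The map `φ` from `(M, g)` to `(N, h)` is harmonic: it is smooth and its tension field
`tr_g ∇dφ` vanishes at every point `x`, the tension field being written in the charts of the
atlases at `x` and at `φ x`. -/
def IsHarmonic (g : RMetric I M) (h : RMetric J N) (φ : M → N) : Prop :=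
  ContMDiff I J ∞ φ ∧ ∀ x : M,
    TensionZeroAt (chartCoeff g x) (chartCoeff h (φ x)) (inCharts I J φ x (φ x)) (extChartAt I x x)

/-- The curve `c` in the model space satisfies `c'' + Γ(c', c') = 0` at the time `t`. -/
def GeodesicAt (Γ : E → E → E) (c : ℝ → E) (t : ℝ) : Prop :=
  deriv (deriv c) t + Γ (deriv c t) (deriv c t) = 0

/-- The curve `γ` is a geodesic of `(N, h)`: it is smooth and `∇_{γ'} γ' = 0` at every time `t`,
written in the chart of the atlas at `γ t`. -/
def IsGeodesic (h : RMetric J N) (γ : ℝ → N) : Prop :=
  ContMDiff 𝓘(ℝ, ℝ) J ∞ γ ∧ ∀ t : ℝ, ∃ Γ : E' → E' → E',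
    IsChristoffel (chartCoeff h (γ t)) (extChartAt J (γ t) (γ t)) Γ ∧
    GeodesicAt Γ (extChartAt J (γ t) ∘ γ) t

/-- `γ` is a closed geodesic of `(N, h)` in the subset `V`: a non-constant periodic geodesic
defined on the real line with values in `V`. -/
def IsClosedGeodesicIn (h : RMetric J N) (V : Set N) (γ : ℝ → N) : Prop :=
  IsGeodesic h γ ∧ (∃ T : ℝ, 0 < T ∧ ∀ t, γ (t + T) = γ t) ∧ (∃ s t, γ s ≠ γ t) ∧ ∀ t, γ t ∈ V

variable (I) in
/-- The differential at `p` of the map `ι` to a vector space. -/
noncomputable def dmap {F : Type*} [NormedAddCommGroup F] [NormedSpace ℝ F] (ι : M → F) (p : M) :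
    E →L[ℝ] F :=
  mfderiv I 𝓘(ℝ, F) ι p

/-- The Riemannian metric `g` is induced by the map `ι` to the Euclidean space `F`: the scalar
product of the tangent vectors `v` and `w` at `p` is that of their images `dι v` and `dι w`. -/
def IsInduced {F : Type*} [NormedAddCommGroup F] [InnerProductSpace ℝ F] (g : RMetric I M)
    (ι : M → F) : Prop :=
  ∀ (p : M) (v w : E), g.form p v w = inner ℝ (dmap I ι p v) (dmap I ι p w)

end Mfd

end Pool.Agent.H234R3
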