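import Pool.Agent.H234R3.Sphere

set_option autoImplicit false

open scoped Manifold ContDiff Topology RealInnerProductSpace
open Module Metric
open Pool.Agent.H839R2.Geo (chart_sphere sph)

namespace Pool.Agent.H234R3

variable {V : Type*} [NormedAddCommGroup V] [InnerProductSpace ℝ V] {n : ℕ}
  [Fact (finrank ℝ V = n + 1)]

lemma two_le_infty : (2 : WithTop ℕ∞) ≤ ∞ := ENat.LEInfty.out

lemma contDiffAt_chart_comp {E : Type*} [NormedAddCommGroup E] [NormedSpace ℝ E]
    {H : Type*} [TopologicalSpace H] {I : ModelWithCorners ℝ E H}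
    {M : Type*} [TopologicalSpace M] [ChartedSpace H M] [IsManifold I ∞ M]
    {γ : ℝ → M} (hγ : ContMDiff 𝓘(ℝ, ℝ) I ∞ γ) (t : ℝ) :
    ContDiffAt ℝ ∞ (extChartAt I (γ t) ∘ γ) t := by
  rw [← contMDiffAt_iff_contDiffAt]
  exact contMDiffAt_extChartAt.comp t hγ.contMDiffAt

/-- the geodesic equation of the round sphere, in the ambient space -/
lemma geodesic_ambient {γ : ℝ → sphere (0 : V) 1} (h : IsGeodesic (round V n) γ) (t : ℝ) :
    deriv (deriv fun s => (γ s : V)) t =
      -(‖deriv (fun s => (γ s : V)) t‖ ^ 2) • (γ t : V) := by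
  obtain ⟨Γ, hΓ, hg⟩ := h.2 t
  obtain ⟨-, hz, J, -, hs⟩ := chart_sphere (V := V) (n := n) (γ t)
  rw [hz] at hΓ
  rw [GeodesicAt, christoffel_round_eq _ hΓ, add_zero] at hg
  have hc := contDiffAt_chart_comp h.1 t
  have hβ : ∀ᶠ s in 𝓝 t, (γ s : V) = sph (γ t : V) J ((extChartAt (𝓡 n) (γ t) ∘ γ) s) := by
    have h1 : ∀ᶠ s in 𝓝 t, γ s ∈ (extChartAt (𝓡 n) (γ t)).source :=
      h.1.continuous.continuousAt.preimage_mem_nhds (extChartAt_source_mem_nhds (γ t))
    filter_upwards [h1] with s h2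
    rw [← hs, Function.comp_apply, (extChartAt (𝓡 n) (γ t)).left_inv h2]
  obtain ⟨h1, h2⟩ := sph_curve (γ t : V) J (hc.of_le two_le_infty) hz hβ
  rw [h2, hg, h1, J.norm_map, map_zero, zero_sub, neg_smul]

theorem geodesic_antipodal {γ : ℝ → sphere (0 : V) 1} (h : IsGeodesic (round V n) γ)
    (hne : ∃ s t, γ s ≠ γ t) : ∃ s t : ℝ, (γ s : V) = -(γ t : V) := by
  set β : ℝ → V := fun s => (γ s : V) with hβ
  have hsm : ContDiff ℝ ∞ β := by
    rw [← contMDiff_iff_contDiff]
    exact (contMDiff_coe_sphere (m := ∞) (E := V) (n := n)).comp h.1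
  have hd : Differentiable ℝ β := hsm.differentiable (by simp)
  have hd2 : Differentiable ℝ (deriv β) := by
    have h1 : ContDiff ℝ 1 (deriv β) := by
      have h2 : ContDiff ℝ ((1 : ℕ) + 1 : ℕ∞) β := hsm.of_le (by exact_mod_cast le_top)
      exact_mod_cast (contDiff_succ_iff_deriv.1 (by exact_mod_cast h2)).2.2
    exact h1.differentiable (by simp)
  have hode : ∀ t, deriv (deriv β) t = -(‖deriv β t‖ ^ 2) • β t := fun t => geodesic_ambient h t
  have hn : ∀ t, ‖β t‖ = 1 := fun t => by simp [hβ]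
  have horth : ∀ t, ⟪β t, deriv β t⟫ = 0 := by
    intro t
    have h1 : HasDerivAt (fun s => ‖β s‖ ^ 2) (2 * ⟪β t, deriv β t⟫) t := (hd t).hasDerivAt.norm_sq
    have h2 : (fun s => ‖β s‖ ^ 2) = fun _ => (1 : ℝ) := by
      funext s; rw [hn]; norm_num
    rw [h2] at h1
    have h3 := h1.unique (hasDerivAt_const t (1 : ℝ))
    linarith
  have hspeed : ∀ t, ‖deriv β t‖ ^ 2 = ‖deriv β 0‖ ^ 2 := by
    intro t
    have h1 : ∀ s, HasDerivAt (fun s => ‖deriv β s‖ ^ 2) 0 s := by
      intro s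
      refine (hd2 s).hasDerivAt.norm_sq.congr_deriv ?_
      rw [hode, inner_smul_right, real_inner_comm, horth]
      ring
    exact is_const_of_deriv_eq_zero (fun s => (h1 s).differentiableAt) (fun s => (h1 s).deriv) t 0
  set w : ℝ := ‖deriv β 0‖ with hw
  have hw0 : w ≠ 0 := by
    intro h0
    obtain ⟨s, t, hst⟩ := hne
    apply hst
    have h1 : ∀ t, deriv β t = 0 := by
      intro t
      have h2 := hspeed t
      rw [h0] at h2
      simpa using h2
    have h2 := is_const_of_deriv_eq_zero hd h1 s t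
    exact Subtype.ext h2
  refine ⟨Real.pi / w, 0, ?_⟩
  let A : ℝ → V := fun t => Real.cos (w * t) • β t - (Real.sin (w * t) / w) • deriv β t
  have hA : ∀ t, HasDerivAt A 0 t := by
    intro t
    have hl : HasDerivAt (fun t : ℝ => w * t) w t := by
      simpa using (hasDerivAt_id t).const_mul w
    have h1 := ((Real.hasDerivAt_cos (w * t)).comp t hl).smul (hd t).hasDerivAt
    have h2 := (((Real.hasDerivAt_sin (w * t)).comp t hl).div_const w).smul (hd2 t).hasDerivAt
    refine (h1.sub h2).congr_deriv ?_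
    rw [hode, hspeed]
    simp only [Function.comp_apply]
    have e1 : (Real.sin (w * t) / w) • (-(w ^ 2) • β t) = (-(Real.sin (w * t) * w)) • β t := by
      rw [smul_smul]; congr 1; field_simp
    have e2 : (Real.cos (w * t) * w / w) = Real.cos (w * t) := by field_simp
    rw [e1, e2]
    module
  have h1 := is_const_of_deriv_eq_zero (fun s => (hA s).differentiableAt) (fun s => (hA s).deriv)
    (Real.pi / w) 0
  simp only [A, mul_zero, Real.cos_zero, Real.sin_zero, zero_div, zero_smul, one_smul,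
    sub_zero, mul_div_cancel₀ _ hw0, Real.cos_pi, Real.sin_pi, neg_smul] at h1
  show β (Real.pi / w) = -β 0
  rw [← h1, neg_neg]

end Pool.Agent.H234R3
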