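import Pool.Agent.H234R3.Defs

/-!
A local strong maximum principle (Hopf) for the Laplacian of a Riemannian metric in coordinates.
-/

set_option autoImplicit false

open scoped ContDiff Topology RealInnerProductSpace
open Module Metric Set

namespace Pool.Agent.H234R3

section Generic

variable {E : Type*} [NormedAddCommGroup E] [NormedSpace ℝ E]

/-- The Laplacian of `U` at `y` is nonnegative, for the metric with coefficients `g`. -/
def SubAt (g : E → E → E → ℝ) (U : E → ℝ) (y : E) : Prop :=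
  ∃ (Γ : E → E → E) (e : Basis (Fin (finrank ℝ E)) ℝ E), IsChristoffel g y Γ ∧
    (∀ i j, g y (e i) (e j) = if i = j then 1 else 0) ∧
    0 ≤ ∑ i, (dd U y (e i) - der U y (Γ (e i) (e i)))

/-- uniform bounds of the metric at `y` -/
structure Bd (G : E → E →L[ℝ] E →L[ℝ] ℝ) (lam Lam C : ℝ) (y : E) : Prop where
  low : ∀ a, lam * ‖a‖ ^ 2 ≤ G y a a
  up : ∀ a, G y a a ≤ Lam * ‖a‖ ^ 2
  kz : ∀ a b c, |koszul (fun z a b => G z a b) y a b c| ≤ C * ‖a‖ * ‖b‖ * ‖c‖

/-- shortcut instance -/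
noncomputable local instance instBil1 : NormedAddCommGroup (E →L[ℝ] E →L[ℝ] ℝ) := inferInstance

/-- shortcut instance -/
noncomputable local instance instBil2 : NormedSpace ℝ (E →L[ℝ] E →L[ℝ] ℝ) := inferInstance

lemma der_coef {G : E → E →L[ℝ] E →L[ℝ] ℝ} {y : E} (hG : DifferentiableAt ℝ G y) (v a b : E) :
    der (fun z => G z a b) y v = fderiv ℝ G y v a b := by
  have h1 : HasFDerivAt (fun y => G y a) ((fderiv ℝ G y).flip a) y := by
    have := hG.hasFDerivAt.clm_apply (hasFDerivAt_const a y)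
    simpa using this
  have h2 : HasFDerivAt (fun y => G y a b) (((fderiv ℝ G y).flip a).flip b) y := by
    have := h1.clm_apply (hasFDerivAt_const b y)
    simpa using this
  rw [der, h2.fderiv]
  rfl

/-- uniform bounds near a point -/
lemma exists_bd [FiniteDimensional ℝ E] {G : E → E →L[ℝ] E →L[ℝ] ℝ} {y0 : E} (hG : ContDiffAt ℝ 1 G y0)
    (hpos : ∀ v, v ≠ 0 → 0 < G y0 v v) :
    ∃ lam Lam C : ℝ, 0 < lam ∧ 0 < Lam ∧ 0 ≤ C ∧ ∀ᶠ y in 𝓝 y0, Bd G lam Lam C y := by
  -- lower bound at y0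
  obtain ⟨l0, hl0, hlow⟩ : ∃ l0 : ℝ, 0 < l0 ∧ ∀ a, l0 * ‖a‖ ^ 2 ≤ G y0 a a := by
    rcases subsingleton_or_nontrivial E with hE | hE
    · exact ⟨1, one_pos, fun a => by simp [Subsingleton.elim a 0]⟩
    have hc : Continuous fun v : E => G y0 v v := by fun_prop
    obtain ⟨v0, hv0, hmin⟩ := (isCompact_sphere (0 : E) 1).exists_isMinOn
      (NormedSpace.sphere_nonempty.2 zero_le_one) hc.continuousOn
    have hv0' : v0 ≠ 0 := by
      intro h
      rw [h] at hv0
      simp at hv0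
    refine ⟨G y0 v0 v0, hpos v0 hv0', fun v => ?_⟩
    by_cases hv : v = 0
    · simp [hv]
    have hn : 0 < ‖v‖ := norm_pos_iff.2 hv
    have h1 : G y0 v0 v0 ≤ G y0 (‖v‖⁻¹ • v) (‖v‖⁻¹ • v) := by
      apply hmin
      simp [norm_smul, hn.ne']
    have h2 : G y0 (‖v‖⁻¹ • v) (‖v‖⁻¹ • v) = G y0 v v / ‖v‖ ^ 2 := by
      simp only [map_smul, _root_.smul_apply, smul_eq_mul]
      field_simp
    rw [h2, le_div_iff₀ (by positivity)] at h1
    exact h1
  have hcont : ContinuousAt G y0 := hG.continuousAt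
  have hcontd : ContinuousAt (fderiv ℝ G) y0 := (hG.fderiv_right (m := 0) (by simp)).continuousAt
  have e1 : ∀ᶠ y in 𝓝 y0, ‖G y - G y0‖ < l0 / 2 := by
    have := hcont (ball_mem_nhds (G y0) (half_pos hl0))
    filter_upwards [this] with y hy
    have hy' : dist _ _ < _ := hy
    rwa [dist_eq_norm] at hy'
  have e2 : ∀ᶠ y in 𝓝 y0, ‖fderiv ℝ G y - fderiv ℝ G y0‖ < 1 := by
    have := hcontd (ball_mem_nhds (fderiv ℝ G y0) one_pos)
    filter_upwards [this] with y hy
    have hy' : dist _ _ < _ := hy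
    rwa [dist_eq_norm] at hy'
  have e3 : ∀ᶠ y in 𝓝 y0, DifferentiableAt ℝ G y := by
    filter_upwards [hG.eventually (by simp)] with y hy
    exact hy.differentiableAt (by simp)
  refine ⟨l0 / 2, ‖G y0‖ + l0 / 2, 3 / 2 * (‖fderiv ℝ G y0‖ + 1), by positivity, by positivity,
    by positivity, ?_⟩
  filter_upwards [e1, e2, e3] with y h1 h2 h3
  have hdiff : ∀ a, |G y a a - G y0 a a| ≤ l0 / 2 * ‖a‖ ^ 2 := by
    intro a
    have h4 : G y a a - G y0 a a = (G y - G y0) a a := by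
      rw [_root_.sub_apply, _root_.sub_apply]
    rw [h4, ← Real.norm_eq_abs]
    calc ‖(G y - G y0) a a‖ ≤ ‖G y - G y0‖ * ‖a‖ * ‖a‖ := (G y - G y0).le_opNorm₂ a a
      _ ≤ l0 / 2 * ‖a‖ * ‖a‖ := by gcongr
      _ = l0 / 2 * ‖a‖ ^ 2 := by ring
  refine ⟨fun a => ?_, fun a => ?_, fun a b c => ?_⟩
  · have := abs_le.1 (hdiff a)
    have := hlow a
    linarith
  · have h4 := abs_le.1 (hdiff a)
    have h5 : G y0 a a ≤ ‖G y0‖ * ‖a‖ ^ 2 := by
      have := (G y0).le_opNorm₂ a a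
      rw [Real.norm_eq_abs] at this
      have := le_abs_self (G y0 a a)
      nlinarith
    linarith
  · have hn : ‖fderiv ℝ G y‖ ≤ ‖fderiv ℝ G y0‖ + 1 := by
      have := norm_sub_norm_le (fderiv ℝ G y) (fderiv ℝ G y0)
      linarith
    have hb : ∀ a b c, |der (fun z => G z b c) y a| ≤ (‖fderiv ℝ G y0‖ + 1) * ‖a‖ * ‖b‖ * ‖c‖ := by
      intro a b c
      rw [der_coef h3, ← Real.norm_eq_abs]
      calc ‖fderiv ℝ G y a b c‖ ≤ ‖fderiv ℝ G y a‖ * ‖b‖ * ‖c‖ := (fderiv ℝ G y a).le_opNorm₂ b c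
        _ ≤ ‖fderiv ℝ G y‖ * ‖a‖ * ‖b‖ * ‖c‖ := by
          gcongr
          exact (fderiv ℝ G y).le_opNorm a
        _ ≤ _ := by gcongr
    have k1 := abs_le.1 (hb a b c)
    have k2 := abs_le.1 (hb b a c)
    have k3 := abs_le.1 (hb c a b)
    unfold koszul
    rw [abs_le]
    constructor <;> nlinarith

end Generic

variable {E : Type*} [NormedAddCommGroup E] [InnerProductSpace ℝ E] [FiniteDimensional ℝ E]

omit [FiniteDimensional ℝ E] in
/-- lower bound for the sum of squares over an orthonormal basis -/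
lemma sum_inner_sq_lower {G : E →L[ℝ] E →L[ℝ] ℝ} {Lam : ℝ}
    (hup : ∀ a, G a a ≤ Lam * ‖a‖ ^ 2) {ι : Type*} [Fintype ι] [DecidableEq ι] (e : Basis ι ℝ E)
    (he : ∀ i j, G (e i) (e j) = if i = j then 1 else 0) (l : E) :
    ‖l‖ ^ 2 ≤ Lam * ∑ i, ⟪l, e i⟫ ^ 2 := by
  by_cases hl : l = 0
  · rw [hl]; simp
  have hn : 0 < ‖l‖ := norm_pos_iff.2 hl
  have h1 : ‖l‖ ^ 2 = ∑ i, e.repr l i * ⟪l, e i⟫ := by
    rw [← real_inner_self_eq_norm_sq]
    conv_lhs => rw [← e.sum_repr l]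
    rw [e.sum_repr l]
    have h3 : ⟪l, l⟫ = ⟪l, ∑ i, e.repr l i • e i⟫ := by rw [e.sum_repr l]
    rw [h3, inner_sum]
    exact Finset.sum_congr rfl fun i _ => by rw [inner_smul_right]
  have h2 : G l l = ∑ i, (e.repr l i) ^ 2 := by
    have h3 : ∀ i, G l (e i) = e.repr l i := by
      intro i
      conv_lhs => rw [← e.sum_repr l]
      simp only [map_sum, map_smul, _root_.sum_apply, _root_.smul_apply, smul_eq_mul, he]
      simp
    conv_lhs => rw [show G l l = G l (∑ i, e.repr l i • e i) by rw [e.sum_repr l]]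
    rw [map_sum]
    exact Finset.sum_congr rfl fun i _ => by rw [map_smul, h3, smul_eq_mul]; ring
  have h3 := Finset.sum_mul_sq_le_sq_mul_sq Finset.univ (fun i => e.repr l i) (fun i => ⟪l, e i⟫)
  rw [← h1, ← h2] at h3
  have h4 : G l l * ∑ i, ⟪l, e i⟫ ^ 2 ≤ Lam * ‖l‖ ^ 2 * ∑ i, ⟪l, e i⟫ ^ 2 := by
    apply mul_le_mul_of_nonneg_right (hup l)
    exact Finset.sum_nonneg fun i _ => sq_nonneg _
  have h5 : ‖l‖ ^ 2 * ‖l‖ ^ 2 ≤ ‖l‖ ^ 2 * (Lam * ∑ i, ⟪l, e i⟫ ^ 2) := by nlinarith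
  exact le_of_mul_le_mul_left h5 (by positivity)

/-- the Gaussian barrier -/
noncomputable def gau (al : ℝ) (z : E) (y : E) : ℝ := Real.exp (-al * ‖y - z‖ ^ 2)

omit [FiniteDimensional ℝ E] in
lemma hasDerivAt_gau_line (al : ℝ) (z y a : E) (t : ℝ) :
    HasDerivAt (fun t : ℝ => gau al z (y + t • a))
      (-2 * al * ⟪y + t • a - z, a⟫ * gau al z (y + t • a)) t := by
  have h1 : HasDerivAt (fun t : ℝ => y + t • a - z) a t := by
    have := (((hasDerivAt_id t).smul_const a).const_add y).sub_const z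
    simpa using this
  have h2 := (h1.norm_sq.const_mul (-al)).exp
  refine h2.congr_deriv ?_
  unfold gau
  ring

omit [FiniteDimensional ℝ E] in
lemma differentiable_gau (al : ℝ) (z : E) : Differentiable ℝ (gau al z) := by
  unfold gau
  have h1 : Differentiable ℝ (fun y : E => ‖y - z‖ ^ 2) := by
    have : ContDiff ℝ 1 (fun y : E => ‖y - z‖ ^ 2) := (contDiff_id.sub contDiff_const).norm_sq ℝ
    exact this.differentiable (by simp)
  exact (h1.const_mul (-al)).exp

omit [FiniteDimensional ℝ E] in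
lemma der_line {F : Type*} [NormedAddCommGroup F] [NormedSpace ℝ F] {U : E → F} {y : E}
    (hU : DifferentiableAt ℝ U y) (a : E) :
    HasDerivAt (fun t : ℝ => U (y + t • a)) (der U y a) 0 := by
  have h1 : HasDerivAt (fun t : ℝ => y + t • a) a 0 := by
    have := (((hasDerivAt_id (0 : ℝ)).smul_const a).const_add y)
    simpa using this
  have h2 : HasFDerivAt U (fderiv ℝ U y) (y + (0 : ℝ) • a) := by
    simpa using hU.hasFDerivAt
  exact h2.comp_hasDerivAt (0 : ℝ) h1

omit [FiniteDimensional ℝ E] in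
lemma der_gau (al : ℝ) (z y a : E) : der (gau al z) y a = -2 * al * ⟪y - z, a⟫ * gau al z y := by
  have h1 := (der_line (differentiable_gau al z y) a).unique (hasDerivAt_gau_line al z y a 0)
  rw [h1]
  simp

omit [FiniteDimensional ℝ E] in
lemma dd_gau (al : ℝ) (z y a : E) :
    dd (gau al z) y a = (4 * al ^ 2 * ⟪y - z, a⟫ ^ 2 - 2 * al * ‖a‖ ^ 2) * gau al z y := by
  unfold dd
  have h0 : (deriv fun t : ℝ => gau al z (y + t • a)) =
      fun t : ℝ => -2 * al * ⟪y + t • a - z, a⟫ * gau al z (y + t • a) := by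
    funext t
    exact (hasDerivAt_gau_line al z y a t).deriv
  rw [h0]
  have h1 : HasDerivAt (fun t : ℝ => ⟪y + t • a - z, a⟫) (‖a‖ ^ 2) 0 := by
    have h2 : HasDerivAt (fun t : ℝ => y + t • a - z) a 0 := by
      have := (((hasDerivAt_id (0 : ℝ)).smul_const a).const_add y).sub_const z
      simpa using this
    have h3 := h2.inner ℝ (hasDerivAt_const (0 : ℝ) a)
    simpa [real_inner_self_eq_norm_sq] using h3
  have h4 := (h1.const_mul (-2 * al)).mul (hasDerivAt_gau_line al z y a 0)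
  refine h4.deriv.trans ?_
  simp only [zero_smul, add_zero]
  ring

omit [FiniteDimensional ℝ E] in
/-- the barrier is strictly subharmonic away from its centre -/
lemma gau_sub {G : E → E →L[ℝ] E →L[ℝ] ℝ} {lam Lam C : ℝ} (hlam : 0 < lam) (hLam : 0 < Lam)
    (hC : 0 ≤ C) {y z : E} (hB : Bd G lam Lam C y) {r1 r2 al : ℝ} (hr1 : 0 < r1)
    (h1 : r1 ≤ ‖y - z‖) (h2 : ‖y - z‖ ≤ r2) (hal : 0 < al)
    (halbig : Lam * ((finrank ℝ E) * (1 / lam) + (finrank ℝ E) * (r2 * (C / lam * (1 / lam)))) <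
      2 * al * r1 ^ 2)
    {Γ : E → E → E} {e : Basis (Fin (finrank ℝ E)) ℝ E}
    (hΓ : IsChristoffel (fun z a b => G z a b) y Γ)
    (he : ∀ i j, G y (e i) (e j) = if i = j then 1 else 0) :
    0 < ∑ i, (dd (gau al z) y (e i) - der (gau al z) y (Γ (e i) (e i))) := by
  have hn : ∀ i, ‖e i‖ ^ 2 ≤ 1 / lam := by
    intro i
    have h3 := hB.low (e i)
    rw [he, if_pos rfl] at h3
    rw [le_div_iff₀ hlam]
    linarith
  have hG : ∀ i, ‖Γ (e i) (e i)‖ ≤ C / lam * (1 / lam) := by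
    intro i
    have h3 := hB.low (Γ (e i) (e i))
    have h4 := hΓ (e i) (e i) (Γ (e i) (e i))
    have h5 := hB.kz (e i) (e i) (Γ (e i) (e i))
    rw [← h4] at h5
    have h6 := le_abs_self (G y (Γ (e i) (e i)) (Γ (e i) (e i)))
    by_cases h0 : ‖Γ (e i) (e i)‖ = 0
    · rw [h0]; positivity
    have h7 : 0 < ‖Γ (e i) (e i)‖ := lt_of_le_of_ne (norm_nonneg _) (Ne.symm h0)
    have h8 : lam * ‖Γ (e i) (e i)‖ * ‖Γ (e i) (e i)‖ ≤ C * ‖e i‖ ^ 2 * ‖Γ (e i) (e i)‖ := by
      nlinarith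
    have h9 := le_of_mul_le_mul_right h8 h7
    have h10 : C * ‖e i‖ ^ 2 ≤ C * (1 / lam) := mul_le_mul_of_nonneg_left (hn i) hC
    rw [div_mul_eq_mul_div, le_div_iff₀ hlam]
    linarith
  have hr2 : 0 ≤ r2 := (norm_nonneg _).trans h2
  have hS := sum_inner_sq_lower hB.up e he (y - z)
  have hgau : 0 < gau al z y := Real.exp_pos _
  have hsum : ∑ i, (dd (gau al z) y (e i) - der (gau al z) y (Γ (e i) (e i))) =
      2 * al * gau al z y * (2 * al * ∑ i, ⟪y - z, e i⟫ ^ 2 - ∑ i, ‖e i‖ ^ 2 +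
        ∑ i, ⟪y - z, Γ (e i) (e i)⟫) := by
    rw [mul_add, mul_sub, Finset.mul_sum, Finset.mul_sum, Finset.mul_sum, Finset.mul_sum,
      ← Finset.sum_sub_distrib, ← Finset.sum_add_distrib]
    refine Finset.sum_congr rfl fun i _ => ?_
    rw [dd_gau, der_gau]
    ring
  rw [hsum]
  apply mul_pos (by positivity)
  have k1 : ∑ i, ‖e i‖ ^ 2 ≤ (finrank ℝ E) * (1 / lam) := by
    calc ∑ i, ‖e i‖ ^ 2 ≤ ∑ _i : Fin (finrank ℝ E), 1 / lam := Finset.sum_le_sum fun i _ => hn i
      _ = _ := by simp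
  have k2 : -((finrank ℝ E) * (r2 * (C / lam * (1 / lam)))) ≤ ∑ i, ⟪y - z, Γ (e i) (e i)⟫ := by
    have : ∀ i, -(r2 * (C / lam * (1 / lam))) ≤ ⟪y - z, Γ (e i) (e i)⟫ := by
      intro i
      have h3 := abs_le.1 (abs_real_inner_le_norm (y - z) (Γ (e i) (e i)))
      have h4 : ‖y - z‖ * ‖Γ (e i) (e i)‖ ≤ r2 * (C / lam * (1 / lam)) :=
        mul_le_mul h2 (hG i) (norm_nonneg _) hr2
      linarith [h3.1]
    calc -((finrank ℝ E) * (r2 * (C / lam * (1 / lam)))) =
        ∑ _i : Fin (finrank ℝ E), -(r2 * (C / lam * (1 / lam))) := by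
          simp
      _ ≤ _ := Finset.sum_le_sum fun i _ => this i
  have k3 : r1 ^ 2 ≤ ‖y - z‖ ^ 2 := pow_le_pow_left₀ hr1.le h1 2
  have k4 : 2 * al * r1 ^ 2 ≤ Lam * (2 * al * ∑ i, ⟪y - z, e i⟫ ^ 2) := by
    have : 2 * al * ‖y - z‖ ^ 2 ≤ 2 * al * (Lam * ∑ i, ⟪y - z, e i⟫ ^ 2) :=
      mul_le_mul_of_nonneg_left hS (by positivity)
    nlinarith
  have k5 : Lam * ((finrank ℝ E) * (1 / lam) + (finrank ℝ E) * (r2 * (C / lam * (1 / lam)))) <
      Lam * (2 * al * ∑ i, ⟪y - z, e i⟫ ^ 2) := lt_of_lt_of_le halbig k4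
  have k6 := lt_of_mul_lt_mul_left k5 hLam.le
  linarith

omit [FiniteDimensional ℝ E] in
lemma contDiffAt_line {n : WithTop ℕ∞} {U : E → ℝ} {y : E} (hU : ContDiffAt ℝ n U y) (a : E) :
    ContDiffAt ℝ n (fun t : ℝ => U (y + t • a)) 0 := by
  have h1 : ContDiffAt ℝ n (fun t : ℝ => y + t • a) 0 := by fun_prop
  have h2 : ContDiffAt ℝ n U (y + (0 : ℝ) • a) := by simpa using hU
  exact h2.comp (0 : ℝ) h1

omit [FiniteDimensional ℝ E] in
lemma dd_nonpos_of_isLocalMax {w : E → ℝ} {q : E} (hw : ContDiffAt ℝ 2 w q) (hmax : IsLocalMax w q)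
    (a : E) : dd w q a ≤ 0 := by
  by_contra hcon
  push Not at hcon
  have hc : ContinuousAt (fun t : ℝ => q + t • a) 0 := by fun_prop
  have hm : IsLocalMax (fun t : ℝ => w (q + t • a)) 0 := by
    have h2 : IsLocalMax w (q + (0 : ℝ) • a) := by simpa using hmax
    exact IsLocalMax.comp_continuous (g := fun t : ℝ => q + t • a) (b := (0 : ℝ)) h2 hc
  have hd : deriv (fun t : ℝ => w (q + t • a)) 0 = 0 := hm.deriv_eq_zero
  have hmin := isLocalMin_of_deriv_deriv_pos hcon hd (contDiffAt_line hw a).continuousAt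
  have he : (fun t : ℝ => w (q + t • a)) =ᶠ[𝓝 0] fun _ => w (q + (0 : ℝ) • a) := by
    filter_upwards [hm, hmin] with t h1 h2
    exact le_antisymm h1 h2
  have h0 : dd w q a = 0 := by
    unfold dd
    rw [he.deriv.deriv_eq]
    simp
  linarith

lemma differentiableAt_deriv_of_contDiffAt {h : ℝ → ℝ} {t : ℝ} (hh : ContDiffAt ℝ 2 h t) :
    DifferentiableAt ℝ (deriv h) t := by
  have h1 : ContDiffAt ℝ 1 (fderiv ℝ h) t := hh.fderiv_right (by norm_num)
  have h2 : deriv h = fun s => fderiv ℝ h s 1 := by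
    funext s
    exact (fderiv_apply_one_eq_deriv).symm
  rw [h2]
  exact (h1.differentiableAt (by simp)).clm_apply (differentiableAt_const _)

omit [FiniteDimensional ℝ E] in
lemma dd_add_mul {U V : E → ℝ} {y : E} (hU : ContDiffAt ℝ 2 U y) (hV : ContDiffAt ℝ 2 V y)
    (c : ℝ) (a : E) : dd (fun y => U y + c * V y) y a = dd U y a + c * dd V y a := by
  unfold dd
  have h1 := contDiffAt_line hU a
  have h2 := contDiffAt_line hV a
  have h3 : (deriv fun t : ℝ => U (y + t • a) + c * V (y + t • a)) =ᶠ[𝓝 0]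
      fun t => deriv (fun t : ℝ => U (y + t • a)) t + c * deriv (fun t : ℝ => V (y + t • a)) t := by
    filter_upwards [h1.eventually (by simp), h2.eventually (by simp)] with t k1 k2
    have d1 := k1.differentiableAt (by simp)
    have d2 := k2.differentiableAt (by simp)
    exact (d1.hasDerivAt.add (d2.hasDerivAt.const_mul c)).deriv
  rw [h3.deriv_eq]
  have d1 := differentiableAt_deriv_of_contDiffAt h1
  have d2 := differentiableAt_deriv_of_contDiffAt h2
  exact (d1.hasDerivAt.add (d2.hasDerivAt.const_mul c)).deriv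

omit [FiniteDimensional ℝ E] in
lemma contDiff_gau {n : WithTop ℕ∞} (al : ℝ) (z : E) : ContDiff ℝ n (gau al z) := by
  unfold gau
  have : ContDiff ℝ n (fun y : E => ‖y - z‖ ^ 2) := (contDiff_id.sub contDiff_const).norm_sq ℝ
  exact (contDiff_const.mul this).exp

/-- local strong maximum principle (Hopf) -/
lemma local_smp {G : E → E →L[ℝ] E →L[ℝ] ℝ} {U : E → ℝ} {y0 : E} (hG : ContDiffAt ℝ 1 G y0)
    (hpos : ∀ v, v ≠ 0 → 0 < G y0 v v) (hU : ContDiffAt ℝ 2 U y0)
    (hsub : ∀ᶠ y in 𝓝 y0, SubAt (fun z a b => G z a b) U y)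
    (hmax : ∀ᶠ y in 𝓝 y0, U y ≤ U y0) :
    ∀ᶠ y in 𝓝 y0, U y = U y0 := by
  obtain ⟨lam, Lam, C, hlam, hLam, hC, hB⟩ := exists_bd hG hpos
  have hall := ((hB.and (hU.eventually (by simp))).and (hsub.and hmax))
  obtain ⟨r, hr, hball⟩ := Metric.eventually_nhds_iff_ball.1 hall
  set R := r / 4 with hR
  have hR0 : 0 < R := by positivity
  have hcl : ∀ y ∈ closedBall y0 (3 * R), y ∈ ball y0 r := by
    intro y hy
    rw [mem_closedBall] at hy
    rw [mem_ball]
    linarith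
  refine Metric.eventually_nhds_iff_ball.2 ⟨R, hR0, fun z hz => ?_⟩
  by_contra hne
  rw [mem_ball] at hz
  have hcU : ContinuousOn U (closedBall y0 (3 * R)) := fun y hy =>
    ((hball y (hcl y hy)).1.2.continuousAt).continuousWithinAt
  -- the contact set
  set K := {y ∈ closedBall y0 (2 * R) | U y = U y0} with hK
  have hsub2 : closedBall y0 (2 * R) ⊆ closedBall y0 (3 * R) := closedBall_subset_closedBall (by linarith)
  have hKc : IsCompact K := by
    have h1 : IsClosed K := by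
      have := (hcU.mono hsub2).preimage_isClosed_of_isClosed isClosed_closedBall
        (isClosed_singleton (x := U y0))
      exact this
    exact (isCompact_closedBall y0 (2 * R)).of_isClosed_subset h1 fun y hy => hy.1
  have hKn : K.Nonempty := ⟨y0, by simp; positivity, rfl⟩
  obtain ⟨p, hp, hpmin⟩ := hKc.exists_isMinOn hKn (f := fun y => dist y z) (by fun_prop)
  set ρ := dist p z with hρ
  have hρR : ρ < R := by
    have : ρ ≤ dist y0 z := hpmin ⟨by simp; positivity, rfl⟩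
    rw [dist_comm y0 z] at this
    linarith
  have hρ0 : 0 < ρ := by
    rw [hρ, dist_pos]
    rintro rfl
    exact hne hp.2
  have hlt : ∀ y, dist y z < ρ → U y < U y0 := by
    intro y hy
    have h1 : dist y y0 ≤ 2 * R := by
      have := dist_triangle y z y0
      linarith
    have h2 := (hball y (hcl y (hsub2 h1))).2.2
    refine lt_of_le_of_ne h2 fun h3 => ?_
    have h4 : ρ ≤ dist y z := hpmin ⟨h1, h3⟩
    linarith
  have hpy : dist p y0 < 2 * R := by
    have := dist_triangle p z y0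
    linarith
  set z' : E := (1 / 2 : ℝ) • (z + p) with hz'
  have hpz' : ‖p - z'‖ = ρ / 2 := by
    have : p - z' = (1 / 2 : ℝ) • (p - z) := by
      rw [hz']
      module
    rw [this, norm_smul, hρ, dist_eq_norm]
    norm_num
    ring
  have hpar : ∀ y, ‖y - z‖ ^ 2 + ‖y - p‖ ^ 2 = 2 * ‖y - z'‖ ^ 2 + ρ ^ 2 / 2 := by
    intro y
    have h1 := parallelogram_law_with_norm ℝ (y - z') ((1 / 2 : ℝ) • (p - z))
    have h2 : y - z' + (1 / 2 : ℝ) • (p - z) = y - z := by
      rw [hz']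
      module
    have h3 : y - z' - (1 / 2 : ℝ) • (p - z) = y - p := by
      rw [hz']
      module
    rw [h2, h3, norm_smul, ← dist_eq_norm p z, ← hρ] at h1
    norm_num at h1
    nlinarith
  have hlt' : ∀ y, ‖y - z'‖ ≤ ρ / 2 → y ≠ p → U y < U y0 := by
    intro y hy hyp
    apply hlt
    have h1 := hpar y
    have h2 : 0 < ‖y - p‖ := norm_pos_iff.2 (sub_ne_zero.2 hyp)
    have h3 : ‖y - z'‖ ^ 2 ≤ (ρ / 2) ^ 2 := pow_le_pow_left₀ (norm_nonneg _) hy 2
    rw [dist_eq_norm]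
    have h4 : ‖y - z‖ ^ 2 < ρ ^ 2 := by nlinarith
    exact lt_of_pow_lt_pow_left₀ 2 hρ0.le h4
  set δ := ρ / 4 with hδ
  have hδ0 : 0 < δ := by positivity
  have hD3 : closedBall p δ ⊆ closedBall y0 (3 * R) := by
    intro y hy
    rw [mem_closedBall] at hy ⊢
    have := dist_triangle y p y0
    linarith
  -- the gap on the part of the sphere
  obtain ⟨η, hη, hgap⟩ : ∃ η : ℝ, 0 < η ∧
      ∀ y ∈ sphere p δ ∩ closedBall z' (ρ / 2), U y ≤ U y0 - η := by
    have hc : IsCompact (sphere p δ ∩ closedBall z' (ρ / 2)) :=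
      (isCompact_sphere p δ).inter_right isClosed_closedBall
    rcases (sphere p δ ∩ closedBall z' (ρ / 2)).eq_empty_or_nonempty with he | hn
    · exact ⟨1, one_pos, by simp [he]⟩
    obtain ⟨s, hs, hsmax⟩ := hc.exists_isMaxOn hn
      (hcU.mono fun y hy => hD3 (sphere_subset_closedBall hy.1))
    have hsp : s ≠ p := by
      rintro rfl
      have := hs.1
      rw [mem_sphere, dist_self] at this
      linarith
    have h1 := hlt' s (by simpa [dist_eq_norm] using hs.2) hsp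
    exact ⟨U y0 - U s, by linarith, fun y hy => by
      have : U y ≤ U s := hsmax hy
      linarith⟩
  -- the barrier
  obtain ⟨al, hal, halbig⟩ : ∃ al : ℝ, 0 < al ∧
      Lam * ((finrank ℝ E) * (1 / lam) + (finrank ℝ E) * (ρ * (C / lam * (1 / lam)))) <
        2 * al * (ρ / 4) ^ 2 := by
    set X := Lam * ((finrank ℝ E) * (1 / lam) + (finrank ℝ E) * (ρ * (C / lam * (1 / lam)))) with hX
    have hX0 : 0 ≤ X := by positivity
    refine ⟨(X + 1) / (2 * (ρ / 4) ^ 2), by positivity, ?_⟩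
    have h1 : 2 * ((X + 1) / (2 * (ρ / 4) ^ 2)) * (ρ / 4) ^ 2 = X + 1 := by
      field_simp
    rw [h1]
    linarith
  set w : E → ℝ := fun y => U y + η / 2 * gau al z' y with hw
  have hgp : ∀ y, 0 < gau al z' y := fun y => Real.exp_pos _
  have hwS : ∀ y ∈ sphere p δ, w y < w p := by
    intro y hy
    have hwp : w p = U y0 + η / 2 * gau al z' p := by rw [hw]; simp only [hp.2]
    rw [hwp]
    by_cases hyc : y ∈ closedBall z' (ρ / 2)
    · have h1 := hgap y ⟨hy, hyc⟩
      have h2 : gau al z' y ≤ 1 := by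
        unfold gau
        apply Real.exp_le_one_iff.2
        have : 0 ≤ al * ‖y - z'‖ ^ 2 := by positivity
        linarith
      have h3 := hgp p
      simp only [hw]
      nlinarith
    · have h1 : ρ / 2 < ‖y - z'‖ := by
        rw [mem_closedBall, not_le, dist_eq_norm] at hyc
        exact hyc
      have h2 : gau al z' y < gau al z' p := by
        unfold gau
        apply Real.exp_lt_exp.2
        rw [hpz']
        have : (ρ / 2) ^ 2 < ‖y - z'‖ ^ 2 := pow_lt_pow_left₀ h1 (by positivity) (by norm_num)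
        nlinarith
      have h3 := (hball y (hcl y (hD3 (sphere_subset_closedBall hy)))).2.2
      simp only [hw]
      nlinarith
  have hwc : ContinuousOn w (closedBall p δ) :=
    (hcU.mono hD3).add (continuousOn_const.mul (contDiff_gau (n := 0) al z').continuous.continuousOn)
  obtain ⟨q, hq, hqmax⟩ := (isCompact_closedBall p δ).exists_isMaxOn
    ⟨p, mem_closedBall_self hδ0.le⟩ hwc
  have hqb : q ∈ ball p δ := by
    rw [mem_ball]
    refine lt_of_le_of_ne hq fun h => ?_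
    have h1 := hwS q h
    have h2 : w p ≤ w q := hqmax (mem_closedBall_self hδ0.le)
    linarith
  have hqloc : IsLocalMax w q := hqmax.isLocalMax (closedBall_mem_nhds_of_mem hqb)
  obtain ⟨⟨hBq, hUq⟩, ⟨Γ, e, hΓ, he, hlap⟩, -⟩ := hball q (hcl q (hD3 hq))
  have hgq : ContDiffAt ℝ 2 (gau al z') q := (contDiff_gau al z').contDiffAt
  have hwq : ContDiffAt ℝ 2 w q := hUq.add (contDiffAt_const.mul hgq)
  have hqz1 : ρ / 4 ≤ ‖q - z'‖ := by
    have h1 : dist q p ≤ δ := hq
    rw [dist_eq_norm] at h1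
    have h2 := norm_sub_norm_le (p - z') (q - z')
    rw [hpz', sub_sub_sub_cancel_right, norm_sub_rev p q] at h2
    linarith
  have hqz2 : ‖q - z'‖ ≤ ρ := by
    have h1 : dist q p ≤ δ := hq
    rw [dist_eq_norm] at h1
    have h2 := norm_add_le (q - p) (p - z')
    rw [hpz', sub_add_sub_cancel] at h2
    linarith
  have hpos := gau_sub hlam hLam hC hBq (r1 := ρ / 4) (r2 := ρ) (by positivity) hqz1 hqz2 hal halbig
    hΓ he
  have hw0 : fderiv ℝ w q = 0 := hqloc.fderiv_eq_zero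
  have hder : ∀ a, der U q a + η / 2 * der (gau al z') q a = 0 := by
    intro a
    have h1 : HasFDerivAt w (fderiv ℝ U q + (η / 2) • fderiv ℝ (gau al z') q) q :=
      (hUq.differentiableAt (by simp)).hasFDerivAt.add
        ((hgq.differentiableAt (by simp)).hasFDerivAt.const_mul (η / 2))
    have h2 := h1.fderiv
    rw [hw0] at h2
    have h3 := congrArg (fun L : E →L[ℝ] ℝ => L a) h2
    simpa [der] using h3.symm
  have hdd : ∀ a, dd U q a + η / 2 * dd (gau al z') q a ≤ 0 := by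
    intro a
    rw [← dd_add_mul hUq hgq]
    exact dd_nonpos_of_isLocalMax hwq hqloc a
  have hfin : ∑ i, (dd U q (e i) - der U q (Γ (e i) (e i))) +
      η / 2 * ∑ i, (dd (gau al z') q (e i) - der (gau al z') q (Γ (e i) (e i))) ≤ 0 := by
    rw [Finset.mul_sum, ← Finset.sum_add_distrib]
    apply Finset.sum_nonpos
    intro i _
    have h1 := hdd (e i)
    have h2 := hder (Γ (e i) (e i))
    nlinarith
  have : 0 < η / 2 * ∑ i, (dd (gau al z') q (e i) - der (gau al z') q (Γ (e i) (e i))) := by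
    positivity
  linarith

end Pool.Agent.H234R3
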