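import Pool.Agent.H234R3.Hopf
import Pool.Agent.H839R2.Geo.Embed

/-!
The strong maximum principle for functions with nonnegative Laplacian on a closed Riemannian
manifold.
-/

set_option autoImplicit false
set_option linter.unusedSectionVars false

open scoped Manifold ContDiff Topology Bundle
open Module Bundle Set
open Pool.Agent.H839R2.Geo (coordMetric)

namespace Pool.Agent.H234R3

lemma two_le_infty' : (2 : WithTop ℕ∞) ≤ ∞ := ENat.LEInfty.out

section General

variable {E : Type*} [NormedAddCommGroup E] [NormedSpace ℝ E]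
  {H : Type*} [TopologicalSpace H] {I : ModelWithCorners ℝ E H} [I.Boundaryless]
  {M : Type*} [TopologicalSpace M] [ChartedSpace H M] [IsManifold I ∞ M]

lemma chartCoeff_eq (g : RMetric I M) (x : M) (y a b : E) :
    chartCoeff g x y a b = coordMetric I g x y a b := rfl

lemma trivSymm_eq {p0 p : M} (hp : p ∈ (extChartAt I p0).source) (v : E) :
    (trivializationAt E (fun p : M => TangentSpace I p) p0).symm p v =
        mfderiv 𝓘(ℝ, E) I (extChartAt I p0).symm (extChartAt I p0 p) v := by
  have hp' : p ∈ (chartAt H p0).source := by rwa [extChartAt_source] at hp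
  have h2 := TangentBundle.symmL_trivializationAt (𝕜 := ℝ) (I := I) hp'
  rw [I.range_eq_univ, mfderivWithin_univ] at h2
  have h4 := Bundle.Trivialization.symmL_apply (R := ℝ)
    (trivializationAt E (TangentSpace I) p0) (b := p) (by simpa using hp') v
  exact h4.symm.trans (congrArg (fun L : E →L[ℝ] E => L v) h2)

/-- the expression in coordinates of a field of bilinear forms -/
lemma triv_form_eq (B : (p : M) → TangentSpace I p →L[ℝ] TangentSpace I p →L[ℝ] ℝ) {p0 p : M}
    (hp : p ∈ (extChartAt I p0).source) (a b : E) :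
    ((trivializationAt (E →L[ℝ] E →L[ℝ] ℝ)
        (fun p : M => TangentSpace I p →L[ℝ] TangentSpace I p →L[ℝ] ℝ) p0
        (TotalSpace.mk' (E →L[ℝ] E →L[ℝ] ℝ) p (B p))).2 : E →L[ℝ] E →L[ℝ] ℝ) a b =
      B p (mfderiv 𝓘(ℝ, E) I (extChartAt I p0).symm (extChartAt I p0 p) a)
        (mfderiv 𝓘(ℝ, E) I (extChartAt I p0).symm (extChartAt I p0 p) b) := by
  have hp' : p ∈ (chartAt H p0).source := by rwa [extChartAt_source] at hp
  rw [hom_trivializationAt_apply]
  have hI := inCoordinates_apply_eq₂ (F₁ := E) (E₁ := fun p : M => TangentSpace I p) (F₂ := E)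
    (E₂ := fun p : M => TangentSpace I p) (F₃ := ℝ) (E₃ := Bundle.Trivial M ℝ)
    (x₀ := p0) (x := p) (ϕ := B p) (v := a) (w := b)
    (by simpa using hp') (by simpa using hp') (by simp)
  erw [hI]
  rw [trivSymm_eq hp, trivSymm_eq hp]
  have h5 : ∀ r : ℝ, (trivializationAt ℝ (Bundle.Trivial M ℝ) p0).linearMapAt ℝ p r = r := by
    intro r
    rw [Bundle.Trivialization.linearMapAt_apply]
    simp
  erw [h5]

lemma contMDiffAt_symm (p0 : M) {y : E} (hy : y ∈ (extChartAt I p0).target) :
    ContMDiffAt 𝓘(ℝ, E) I ∞ (extChartAt I p0).symm y := by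
  have := (contMDiffOn_extChartAt_symm (I := I) (n := ∞) p0) _ hy
  exact this.contMDiffAt (extChartAt_target_mem_nhds' hy)

lemma contDiffAt_coordMetric (g : RMetric I M) (p0 : M) :
    ContDiffAt ℝ ∞ (coordMetric I g p0) (extChartAt I p0 p0) := by
  have h1 := g.contMDiff p0
  rw [contMDiffAt_section] at h1
  have hkey : (fun p : M => (trivializationAt (E →L[ℝ] E →L[ℝ] ℝ)
        (fun p : M => TangentSpace I p →L[ℝ] TangentSpace I p →L[ℝ] ℝ) p0
        (TotalSpace.mk' (E →L[ℝ] E →L[ℝ] ℝ) p (g.inner p))).2) =ᶠ[𝓝 p0]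
      fun p : M => coordMetric I g p0 (extChartAt I p0 p) := by
    filter_upwards [extChartAt_source_mem_nhds (I := I) p0] with p hp
    have hb : (extChartAt I p0).symm (extChartAt I p0 p) = p := (extChartAt I p0).left_inv hp
    ext a b
    refine (triv_form_eq (fun p => g.inner p) hp a b).trans ?_
    have h6 : ∀ (q : M) (_ : q = p) (u v : E),
        (g.inner p : E →L[ℝ] E →L[ℝ] ℝ) u v = (g.inner q : E →L[ℝ] E →L[ℝ] ℝ) u v := by
      rintro _ rfl u v
      rfl
    exact h6 _ hb _ _
  have h2 : ContMDiffAt I 𝓘(ℝ, E →L[ℝ] E →L[ℝ] ℝ) ∞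
      (fun p : M => coordMetric I g p0 (extChartAt I p0 p)) p0 :=
    h1.congr_of_eventuallyEq hkey.symm
  have hy := mem_extChartAt_target (I := I) p0
  have h3 : ContMDiffAt I 𝓘(ℝ, E →L[ℝ] E →L[ℝ] ℝ) ∞
      (fun p : M => coordMetric I g p0 (extChartAt I p0 p))
      ((extChartAt I p0).symm (extChartAt I p0 p0)) := by
    rw [extChartAt_to_inv]
    exact h2
  have h4 := h3.comp (extChartAt I p0 p0) (contMDiffAt_symm p0 hy)
  rw [contMDiffAt_iff_contDiffAt] at h4
  refine h4.congr_of_eventuallyEq ?_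
  filter_upwards [extChartAt_target_mem_nhds (I := I) p0] with y hy
  simp only [Function.comp_apply]
  rw [(extChartAt I p0).right_inv hy]

lemma dchart_injective (p0 : M) {y : E} (hy : y ∈ (extChartAt I p0).target) :
    Function.Injective (dchart I p0 y) := by
  have h1 : MDifferentiableAt 𝓘(ℝ, E) I (extChartAt I p0).symm y :=
    (contMDiffAt_symm p0 hy).mdifferentiableAt (by simp)
  have h2 : MDifferentiableAt I 𝓘(ℝ, E) (extChartAt I p0) ((extChartAt I p0).symm y) :=
    (contMDiffAt_extChartAt' (n := ∞) (by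
      rw [← extChartAt_source I]
      exact (extChartAt I p0).map_target hy)).mdifferentiableAt (by simp)
  have h3 := mfderiv_comp y h2 h1
  have h4 : (extChartAt I p0) ∘ (extChartAt I p0).symm =ᶠ[𝓝 y] id := by
    filter_upwards [extChartAt_target_mem_nhds' hy] with z hz
    exact (extChartAt I p0).right_inv hz
  rw [h4.mfderiv_eq, mfderiv_id] at h3
  intro a b hab
  have h5 : (mfderiv 𝓘(ℝ, E) I (extChartAt I p0).symm y : E →L[ℝ] E) a =
    (mfderiv 𝓘(ℝ, E) I (extChartAt I p0).symm y : E →L[ℝ] E) b := hab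
  have h6 : ∀ c : E, (ContinuousLinearMap.id ℝ E) c =
    (mfderiv I 𝓘(ℝ, E) (extChartAt I p0) ((extChartAt I p0).symm y) : E →L[ℝ] E)
      ((mfderiv 𝓘(ℝ, E) I (extChartAt I p0).symm y : E →L[ℝ] E) c) := fun c =>
    congrArg (fun L : E →L[ℝ] E => L c) h3
  have h7 := h6 a
  rw [h5, ← h6 b] at h7
  exact h7

lemma coordMetric_pos (g : RMetric I M) (p0 : M) {y : E} (hy : y ∈ (extChartAt I p0).target)
    {v : E} (hv : v ≠ 0) : 0 < coordMetric I g p0 y v v := by
  refine g.pos _ _ ?_
  intro h
  apply hv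
  apply dchart_injective p0 hy
  rw [map_zero]
  exact h

lemma coordMetric_symm (g : RMetric I M) (p0 : M) (y a b : E) :
    coordMetric I g p0 y a b = coordMetric I g p0 y b a :=
  g.symm _ _ _

lemma contDiffAt_chart' {u : M → ℝ} (hu : ContMDiff I 𝓘(ℝ, ℝ) ∞ u) (x : M) {y : E}
    (hy : y ∈ (extChartAt I x).target) :
    ContDiffAt ℝ ∞ (u ∘ (extChartAt I x).symm) y :=
  Pool.Agent.H839R2.Geo.contDiffAt_chart hu x hy

end General

section SMP

variable {E : Type*} [NormedAddCommGroup E] [InnerProductSpace ℝ E] [FiniteDimensional ℝ E]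
  {H : Type*} [TopologicalSpace H] {I : ModelWithCorners ℝ E H} [I.Boundaryless]
  {M : Type*} [TopologicalSpace M] [ChartedSpace H M] [IsManifold I ∞ M]

/-- The strong maximum principle on a closed manifold. -/
theorem smp_global [CompactSpace M] [ConnectedSpace M] (g : RMetric I M) {u : M → ℝ}
    (hu : ContMDiff I 𝓘(ℝ, ℝ) ∞ u)
    (hsub : ∀ x0 : M, ∀ᶠ y in 𝓝 (extChartAt I x0 x0),
      SubAt (chartCoeff g x0) (u ∘ (extChartAt I x0).symm) y) :
    ∃ c, ∀ x, u x = c := by
  obtain ⟨p, -, hp⟩ := isCompact_univ.exists_isMaxOn univ_nonempty hu.continuous.continuousOn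
  have hmax : ∀ x, u x ≤ u p := fun x => hp (mem_univ x)
  have hS : IsClopen {x | u x = u p} := by
    refine ⟨isClosed_eq hu.continuous continuous_const, ?_⟩
    rw [isOpen_iff_mem_nhds]
    intro x0 hx0
    have hx0' : u x0 = u p := hx0
    have hy0 := mem_extChartAt_target (I := I) x0
    have h1 := local_smp (G := coordMetric I g x0) (U := u ∘ (extChartAt I x0).symm)
      (y0 := extChartAt I x0 x0) ((contDiffAt_coordMetric g x0).of_le (by simp))
      (fun v hv => coordMetric_pos g x0 hy0 hv) ((contDiffAt_chart' hu x0 hy0).of_le two_le_infty') (hsub x0) (by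
        refine Filter.Eventually.of_forall fun y => ?_
        simp only [Function.comp_apply, extChartAt_to_inv]
        rw [hx0']
        exact hmax _)
    have h2 := (continuousAt_extChartAt (I := I) x0).eventually h1
    filter_upwards [h2, extChartAt_source_mem_nhds (I := I) x0] with x hx hxs
    simp only [Function.comp_apply, extChartAt_to_inv] at hx
    rw [(extChartAt I x0).left_inv hxs] at hx
    rw [hx, hx0']
  have huniv := hS.eq_univ ⟨p, rfl⟩
  refine ⟨u p, fun x => ?_⟩
  have : x ∈ {x | u x = u p} := by rw [huniv]; trivial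
  exact this

end SMP

end Pool.Agent.H234R3
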