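import Pool.Agent.H234R3.VerHarm

/-!
The unit spheres as manifolds, and the Veronese counterexample.
-/

set_option autoImplicit false

open scoped Manifold ContDiff Topology RealInnerProductSpace
open Module Metric

namespace Pool.Agent.H234R3

/-- The unit sphere `S^n` of the Euclidean space `ℝ^(n+1)`. -/
def Sph (n : ℕ) : Type := sphere (0 : EuclideanSpace ℝ (Fin (n + 1))) 1

/-- The inclusion of `S^n` in `ℝ^(n+1)`. -/
def incl (n : ℕ) (x : Sph n) : EuclideanSpace ℝ (Fin (n + 1)) := x.1

/-- The subspace topology of the unit sphere. -/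
noncomputable instance (n : ℕ) : TopologicalSpace (Sph n) :=
  inferInstanceAs (TopologicalSpace (sphere (0 : EuclideanSpace ℝ (Fin (n + 1))) 1))

/-- The charts of the unit sphere (stereographic projections), as in Mathlib. -/
noncomputable instance (n : ℕ) : ChartedSpace (EuclideanSpace ℝ (Fin n)) (Sph n) :=
  inferInstanceAs (ChartedSpace (EuclideanSpace ℝ (Fin n))
    (sphere (0 : EuclideanSpace ℝ (Fin (n + 1))) 1))

instance (n : ℕ) : IsManifold (𝓡 n) ∞ (Sph n) :=
  inferInstanceAs (IsManifold (𝓡 n) ∞ (sphere (0 : EuclideanSpace ℝ (Fin (n + 1))) 1))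

/-- The smooth Riemannian metrics on the manifold `S^n`. -/
def SphMetric (n : ℕ) : Type := RMetric (𝓡 n) (Sph n)

/-- `g` is the round metric of `S^n`: the metric induced by the inclusion of the unit sphere. -/
def IsRound {n : ℕ} (g : SphMetric n) : Prop := IsInduced (I := 𝓡 n) (M := Sph n) g (incl n)

/-- The subset `V` of the Riemannian manifold `(S^n, h)` contains no closed geodesic. -/
def NoClosedGeodesic {n : ℕ} (h : SphMetric n) (V : Set (Sph n)) : Prop :=
  ∀ γ : ℝ → Sph n, ¬ IsClosedGeodesicIn (J := 𝓡 n) (N := Sph n) h V γ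

/-- The map `φ` from `(S^k, g)` to `(S^n, h)` is harmonic. -/
def IsHarmonicMap {k n : ℕ} (g : SphMetric k) (h : SphMetric n) (φ : Sph k → Sph n) : Prop :=
  IsHarmonic (I := 𝓡 k) (M := Sph k) (J := 𝓡 n) (N := Sph n) g h φ

/-- matrices as vectors -/
noncomputable def matEquiv (k : ℕ) :
    Mat k ≃ₗᵢ[ℝ] EuclideanSpace ℝ (Fin ((k * k + 2 * k) + 1)) :=
  LinearIsometryEquiv.piLpCongrLeft 2 ℝ ℝ
    (finProdFinEquiv.trans (finCongr (by ring)))

theorem veronese (k : ℕ) (hk : 2 ≤ k) :
    ∃ (n : ℕ) (g : SphMetric k) (h : SphMetric n) (V : Set (Sph n)) (φ : Sph k → Sph n),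
      IsRound g ∧ IsRound h ∧ IsOpen V ∧ NoClosedGeodesic h V ∧
      IsHarmonicMap g h φ ∧ (∃ x y, φ x ≠ φ y) ∧ ∀ x, φ x ∈ V := by
  have hk1 : 1 ≤ k := by omega
  let T := (matEquiv k).toLinearIsometry
  refine ⟨k * k + 2 * k, round (EuclideanSpace ℝ (Fin (k + 1))) k,
    round (EuclideanSpace ℝ (Fin ((k * k + 2 * k) + 1))) (k * k + 2 * k),
    {A | 0 < trCube ((matEquiv k).symm (incl _ A))}, verS T hk1, ?_, ?_, ?_, ?_,
    verS_harmonic T hk1, ?_, ?_⟩
  · exact isInduced_round (V := EuclideanSpace ℝ (Fin (k + 1))) (n := k)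
  · exact isInduced_round (V := EuclideanSpace ℝ (Fin ((k * k + 2 * k) + 1))) (n := k * k + 2 * k)
  · refine isOpen_lt continuous_const ((continuous_trCube k).comp
      ((matEquiv k).symm.continuous.comp ?_))
    exact continuous_subtype_val
  · rintro γ ⟨h1, -, h2, h3⟩
    obtain ⟨s, t, hst⟩ := geodesic_antipodal
      (V := EuclideanSpace ℝ (Fin ((k * k + 2 * k) + 1))) (n := k * k + 2 * k) h1 h2
    have h4 : 0 < trCube ((matEquiv k).symm (incl _ (γ s))) := h3 s
    have h5 : 0 < trCube ((matEquiv k).symm (incl _ (γ t))) := h3 t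
    have h6 : incl _ (γ s) = - incl _ (γ t) := hst
    rw [h6, map_neg, trCube_neg] at h4
    linarith
  · refine ⟨(⟨EuclideanSpace.single 0 1, by simp⟩ : sphere (0 : EuclideanSpace ℝ (Fin (k + 1))) 1),
      (⟨EuclideanSpace.single 1 1, by simp⟩ : sphere (0 : EuclideanSpace ℝ (Fin (k + 1))) 1), ?_⟩
    intro h
    have h0 : T (ver k (EuclideanSpace.single 0 1)) = T (ver k (EuclideanSpace.single 1 1)) :=
      congrArg (incl (k * k + 2 * k)) h
    have h1 := congrArg (fun A : Mat k => A (0, 0)) (T.injective h0)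
    simp only at h1
    rw [ver_apply, ver_apply] at h1
    have h2 : (0 : Fin (k + 1)) ≠ 1 := by
      intro h3
      have h4 := congrArg Fin.val h3
      have h5 : (1 : Fin (k + 1)).val = 1 := by
        rw [Fin.val_one']
        exact Nat.mod_eq_of_lt (by omega)
      rw [h5] at h4
      simp at h4
    have hcc : 0 < cc k := by
      unfold cc
      have : (0 : ℝ) < k := by exact_mod_cast (by omega : 0 < k)
      positivity
    have h3 := mul_left_cancel₀ hcc.ne' h1
    simp [h2] at h3
  · intro x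
    show 0 < trCube ((matEquiv k).symm (T (ver k (incl k x))))
    have h1 : (matEquiv k).symm (T (ver k (incl k x))) = ver k (incl k x) :=
      (matEquiv k).symm_apply_apply _
    rw [h1]
    refine trCube_ver hk _ ?_
    exact mem_sphere_zero_iff_norm.1 (show incl k x ∈ sphere (0 : EuclideanSpace ℝ (Fin (k + 1))) 1
      from Subtype.property (p := fun y => y ∈ sphere (0 : EuclideanSpace ℝ (Fin (k + 1))) 1) x)

end Pool.Agent.H234R3
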