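import Pool.Agent.H234R3.Defs
import Pool.Agent.H839R2.Geo.Sph

set_option autoImplicit false

open scoped Manifold ContDiff Topology RealInnerProductSpace
open Module Metric
open Pool.Agent.H839R2.Geo (embMetric coordMetric coordMetric_embMetric chart_sphere sph pull
  pull_apply sph_conformal)

namespace Pool.Agent.H234R3

section

variable (V : Type*) [NormedAddCommGroup V] [InnerProductSpace ℝ V]

/-- The scalar product of `V`, as a bilinear form. -/
noncomputable def ip : V →L[ℝ] V →L[ℝ] ℝ := innerSL ℝ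

lemma ip_apply (v w : V) : ip V v w = ⟪v, w⟫ := rfl

lemma coe_injective (n : ℕ) [Fact (finrank ℝ V = n + 1)] (p : sphere (0 : V) 1) :
    Function.Injective (mfderiv (𝓡 n) 𝓘(ℝ, V) (fun x : sphere (0 : V) 1 => (x : V)) p) :=
  injective_mvfderiv_subtypeVal_sphere (E := V) (n := n) p

/-- The round metric on the unit sphere of the Euclidean space `V` of dimension `n + 1`: the metric
induced by the inclusion of the sphere in `V`. -/
noncomputable def round (n : ℕ) [Fact (finrank ℝ V = n + 1)] :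
    RMetric (𝓡 n) (sphere (0 : V) 1) :=
  embMetric (fun x : sphere (0 : V) 1 => (x : V)) (contMDiff_coe_sphere (m := ∞))
    (coe_injective V n)
    (fun _ => ip V) (fun _ => contDiffAt_const)
    (fun _ v w => by rw [ip_apply, ip_apply, real_inner_comm])
    (fun _ v hv => by rw [ip_apply]; exact real_inner_self_pos.2 hv)

end

section

variable {V : Type*} [NormedAddCommGroup V] [InnerProductSpace ℝ V] {n : ℕ}
  [Fact (finrank ℝ V = n + 1)]

lemma isInduced_round : IsInduced (round V n) (fun x : sphere (0 : V) 1 => (x : V)) :=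
  fun _ _ _ => rfl

lemma coord_round (x : sphere (0 : V) 1) (y a b : EuclideanSpace ℝ (Fin n)) :
    chartCoeff (round V n) x y a b = 16 / (‖y‖ ^ 2 + 4) ^ 2 * ⟪a, b⟫ := by
  obtain ⟨ht, -, J, ho, hs⟩ := chart_sphere (V := V) (n := n) x
  have hx : ‖(x : V)‖ = 1 := by simp
  have h1 : ((fun x : sphere (0 : V) 1 => (x : V)) ∘ (extChartAt (𝓡 n) x).symm) = sph (x : V) J := by
    funext w; exact hs w
  have h2 : coordMetric (𝓡 n) (round V n) x y = pull (fun _ => ip V)
      ((fun x : sphere (0 : V) 1 => (x : V)) ∘ (extChartAt (𝓡 n) x).symm) y :=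
    coordMetric_embMetric _ _ _ _ _ _ _ x (by rw [ht]; trivial)
  have h3 : chartCoeff (round V n) x y a b = coordMetric (𝓡 n) (round V n) x y a b := rfl
  rw [h3, h2, pull_apply, h1, ip_apply, sph_conformal _ hx _ ho]

lemma coord_round_zero (x : sphere (0 : V) 1) (a b : EuclideanSpace ℝ (Fin n)) :
    chartCoeff (round V n) x 0 a b = ⟪a, b⟫ := by
  rw [coord_round]; norm_num

lemma der_coord_round (x : sphere (0 : V) 1) (a b c : EuclideanSpace ℝ (Fin n)) :
    der (fun z => chartCoeff (round V n) x z b c) 0 a = 0 := by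
  have h0 : (fun z => chartCoeff (round V n) x z b c) =
      fun z => 16 / (‖z‖ ^ 2 + 4) ^ 2 * ⟪b, c⟫ := by
    funext z; exact coord_round x z b c
  rw [h0]
  have h1 : HasFDerivAt (fun w : EuclideanSpace ℝ (Fin n) => ‖w‖ ^ 2)
      (2 • (innerSL ℝ (0 : EuclideanSpace ℝ (Fin n)))) 0 :=
    (hasStrictFDerivAt_norm_sq (0 : EuclideanSpace ℝ (Fin n))).hasFDerivAt
  have h2 : DifferentiableAt ℝ (fun r : ℝ => 16 / (r + 4) ^ 2 * ⟪b, c⟫)
      (‖(0 : EuclideanSpace ℝ (Fin n))‖ ^ 2) := by
    have h3 : DifferentiableAt ℝ (fun r : ℝ => (r + 4) ^ 2) (‖(0 : EuclideanSpace ℝ (Fin n))‖ ^ 2) := by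
      fun_prop
    exact (DifferentiableAt.div (differentiableAt_const _) h3 (by simp)).mul_const _
  have h3 := h2.hasDerivAt.comp_hasFDerivAt (0 : EuclideanSpace ℝ (Fin n)) h1
  unfold der
  have h4 := congrArg (fun L : EuclideanSpace ℝ (Fin n) →L[ℝ] ℝ => L a) h3.fderiv
  refine Eq.trans h4 ?_
  simp

lemma christoffel_round (x : sphere (0 : V) 1) :
    IsChristoffel (chartCoeff (round V n) x) 0 (fun _ _ => 0) := by
  intro a b c
  rw [koszul, der_coord_round, der_coord_round, der_coord_round, coord_round_zero,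
    inner_zero_left]
  norm_num

lemma christoffel_round_eq (x : sphere (0 : V) 1)
    {Γ : EuclideanSpace ℝ (Fin n) → EuclideanSpace ℝ (Fin n) → EuclideanSpace ℝ (Fin n)}
    (h : IsChristoffel (chartCoeff (round V n) x) 0 Γ) (a b : EuclideanSpace ℝ (Fin n)) :
    Γ a b = 0 := by
  have h1 := h a b (Γ a b)
  rw [koszul, der_coord_round, der_coord_round, der_coord_round, coord_round_zero] at h1
  simpa using h1

end

section Curve

variable {A V : Type*} [NormedAddCommGroup A] [InnerProductSpace ℝ A]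
    [NormedAddCommGroup V] [InnerProductSpace ℝ V]

/-- second order jet of `sph v J ∘ c` at a time where `c = 0` -/
lemma sph_curve (v : V) (J : A →ₗᵢ[ℝ] V) {c : ℝ → A} {t : ℝ} (hc : ContDiffAt ℝ 2 c t)
    (h0 : c t = 0) {β : ℝ → V} (hβ : ∀ᶠ s in 𝓝 t, β s = sph v J (c s)) :
    deriv β t = J (deriv c t) ∧
      deriv (deriv β) t = J (deriv (deriv c) t) - (‖deriv c t‖ ^ 2) • v := by
  have hd : ∀ᶠ s in 𝓝 t, DifferentiableAt ℝ c s := by
    filter_upwards [hc.eventually (by simp)] with s hs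
    exact hs.differentiableAt (by simp)
  have hd2 : DifferentiableAt ℝ (deriv c) t := by
    have h1 : ContDiffAt ℝ 1 (fderiv ℝ c) t := hc.fderiv_right (by norm_num)
    have h2 := h1.differentiableAt (by simp)
    have h3 : deriv c = fun s => fderiv ℝ c s 1 := by
      funext s; exact fderiv_apply_one_eq_deriv.symm
    rw [h3]
    exact h2.clm_apply (differentiableAt_const _)
  let ρ : ℝ → ℝ := fun s => ‖c s‖ ^ 2
  let w : ℝ → ℝ := fun s => (ρ s + 4)⁻¹
  have hρ : ∀ s, DifferentiableAt ℝ c s → HasDerivAt ρ (2 * ⟪c s, deriv c s⟫) s := by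
    intro s hs
    exact hs.hasDerivAt.norm_sq
  have hne : ∀ s, ρ s + 4 ≠ 0 := fun s => by positivity
  have hw : ∀ s, DifferentiableAt ℝ c s →
      HasDerivAt w (-(2 * ⟪c s, deriv c s⟫) * (w s) ^ 2) s := by
    intro s hs
    have h1 := ((hρ s hs).add_const 4).inv (hne s)
    refine h1.congr_deriv ?_
    show _ = -(2 * ⟪c s, deriv c s⟫) * ((ρ s + 4)⁻¹) ^ 2
    rw [inv_pow, div_eq_mul_inv]
  have hβ' : β =ᶠ[𝓝 t] fun s => (4 * w s) • J (c s) + (8 * w s - 1) • v := by
    filter_upwards [hβ] with s hs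
    rw [hs, sph]
    show (ρ s + 4)⁻¹ • ((4 : ℝ) • J (c s) + (4 - ρ s) • v) =
      (4 * (ρ s + 4)⁻¹) • J (c s) + (8 * (ρ s + 4)⁻¹ - 1) • v
    have h1 : (8 * (ρ s + 4)⁻¹ - 1) = (ρ s + 4)⁻¹ * (4 - ρ s) := by
      have := hne s
      field_simp
      ring
    rw [h1]
    module
  have hJ : ∀ s, DifferentiableAt ℝ c s → HasDerivAt (fun s => J (c s)) (J (deriv c s)) s := by
    intro s hs
    exact J.toContinuousLinearMap.hasFDerivAt.comp_hasDerivAt s hs.hasDerivAt
  have hder : ∀ s, DifferentiableAt ℝ c s →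
      HasDerivAt (fun s => (4 * w s) • J (c s) + (8 * w s - 1) • v)
        ((4 * w s) • J (deriv c s) + (4 * (-(2 * ⟪c s, deriv c s⟫) * (w s) ^ 2)) • J (c s) +
          (8 * (-(2 * ⟪c s, deriv c s⟫) * (w s) ^ 2)) • v) s := by
    intro s hs
    have h1 := ((hw s hs).const_mul 4).smul (hJ s hs)
    have h2 := (((hw s hs).const_mul 8).sub_const 1).smul_const v
    exact h1.add h2
  have hβ1 : deriv β =ᶠ[𝓝 t] fun s => ((4 * w s) • J (deriv c s) +
      (4 * (-(2 * ⟪c s, deriv c s⟫) * (w s) ^ 2)) • J (c s) +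
          (8 * (-(2 * ⟪c s, deriv c s⟫) * (w s) ^ 2)) • v) := by
    have h1 := hβ'.deriv
    filter_upwards [h1, hd] with s h2 h3
    rw [h2]
    exact (hder s h3).deriv
  have hct : DifferentiableAt ℝ c t := hd.self_of_nhds
  have hwt : w t = 4⁻¹ := by
    show (‖c t‖ ^ 2 + 4)⁻¹ = 4⁻¹
    rw [h0]; simp
  constructor
  · have h1 := hβ1.self_of_nhds
    simp only [h0, hwt, inner_zero_left, map_zero] at h1
    rw [h1]
    simp
  · rw [hβ1.deriv_eq]
    have e1 : HasDerivAt w 0 t := by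
      refine (hw t hct).congr_deriv ?_
      rw [h0]; simp
    have e2 : HasDerivAt (fun s => ⟪c s, deriv c s⟫) (‖deriv c t‖ ^ 2) t := by
      have h1 := hct.hasDerivAt.inner ℝ hd2.hasDerivAt
      refine h1.congr_deriv ?_
      rw [h0, inner_zero_left, real_inner_self_eq_norm_sq, zero_add]
    have e3 : HasDerivAt (fun s => -(2 * ⟪c s, deriv c s⟫) * (w s) ^ 2)
        (-(‖deriv c t‖ ^ 2) / 8) t := by
      have h1 := ((e2.const_mul 2).neg).mul (e1.pow 2)
      refine h1.congr_deriv ?_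
      simp only [Pi.pow_apply, hwt]
      ring
    have e4 : HasDerivAt (fun s => J (deriv c s)) (J (deriv (deriv c) t)) t :=
      J.toContinuousLinearMap.hasFDerivAt.comp_hasDerivAt t hd2.hasDerivAt
    have h1 := (((e1.const_mul 4).smul e4).add ((e3.const_mul 4).smul (hJ t hct))).add
      ((e3.const_mul 8).smul_const v)
    refine h1.deriv.trans ?_
    simp only [hwt, h0, inner_zero_left, map_zero]
    rw [show (8 * (-(‖deriv c t‖ ^ 2) / 8)) = -(‖deriv c t‖ ^ 2) by ring]
    module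

end Curve

end Pool.Agent.H234R3
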