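import Pool.Agent.H234R3.TorH

/-!
No strictly convex function near the compact torus `r = 0` of `N`.
-/

set_option autoImplicit false
set_option linter.unusedSectionVars false

open scoped Manifold ContDiff Topology Bundle
open Module Bundle Set

namespace Pool.Agent.H234R3

/-- no bounded function on the line has positive second derivative -/
lemma no_bounded_convex {G : ℝ → ℝ} (hG : ContDiff ℝ 2 G) {B : ℝ} (hB : ∀ t, |G t| ≤ B)
    (hpos : ∀ t, 0 < deriv (deriv G) t) : False := by
  have hB0 : 0 ≤ B := (abs_nonneg _).trans (hB 0)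
  have hd : Differentiable ℝ G := hG.differentiable (by simp)
  have hmono : StrictMono (deriv G) := strictMono_of_deriv_pos hpos
  have hmvt : ∀ a b, a < b → ∃ ξ, a < ξ ∧ ξ < b ∧ G b - G a = deriv G ξ * (b - a) := by
    intro a b hab
    obtain ⟨ξ, hξ, h⟩ := exists_deriv_eq_slope G hab hd.continuous.continuousOn
      hd.differentiableOn
    refine ⟨ξ, hξ.1, hξ.2, ?_⟩
    rw [h]
    field_simp [sub_ne_zero.2 hab.ne']
  by_cases hA : ∃ t1, 0 < deriv G t1
  · obtain ⟨t1, ht1⟩ := hA
    set c := deriv G t1 with hc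
    have hlt : t1 < t1 + (2 * B + 1) / c := by
      have : 0 < (2 * B + 1) / c := by positivity
      linarith
    obtain ⟨ξ, h1, -, h3⟩ := hmvt _ _ hlt
    have h4 : c < deriv G ξ := hmono h1
    have h5 : t1 + (2 * B + 1) / c - t1 = (2 * B + 1) / c := by ring
    rw [h5] at h3
    have h6 : c * ((2 * B + 1) / c) = 2 * B + 1 := by field_simp
    have h7 : c * ((2 * B + 1) / c) < deriv G ξ * ((2 * B + 1) / c) :=
      mul_lt_mul_of_pos_right h4 (by positivity)
    have h8 := abs_le.1 (hB t1)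
    have h9 := abs_le.1 (hB (t1 + (2 * B + 1) / c))
    linarith [h8.1, h8.2, h9.1, h9.2]
  · push Not at hA
    have h01 : deriv G 0 < deriv G 1 := hmono one_pos
    have h1 := hA 1
    set c := -deriv G 0 with hc
    have hc0 : 0 < c := by linarith
    have hlt : -((2 * B + 1) / c) < 0 := by
      have : 0 < (2 * B + 1) / c := by positivity
      linarith
    obtain ⟨ξ, -, h2, h3⟩ := hmvt _ _ hlt
    have h4 : deriv G ξ < deriv G 0 := hmono h2
    have h5 : (0 : ℝ) - -((2 * B + 1) / c) = (2 * B + 1) / c := by ring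
    rw [h5] at h3
    have h6 : c * ((2 * B + 1) / c) = 2 * B + 1 := by field_simp
    have h7 : deriv G ξ * ((2 * B + 1) / c) < (-c) * ((2 * B + 1) / c) :=
      mul_lt_mul_of_pos_right (by linarith) (by positivity)
    have h8 := abs_le.1 (hB 0)
    have h9 := abs_le.1 (hB (-((2 * B + 1) / c)))
    have h10 : (-c) * ((2 * B + 1) / c) = -(2 * B + 1) := by rw [neg_mul, h6]
    linarith [h8.1, h8.2, h9.1, h9.2]

/-- the compact torus `r = 0` -/
def torus0 : Set TN := tq '' ({(0 : ℝ)} ×ˢ (Icc (0 : ℝ) 1 ×ˢ Icc (0 : ℝ) 1))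

lemma isCompact_torus0 : IsCompact torus0 :=
  (isCompact_singleton.prod (isCompact_Icc.prod isCompact_Icc)).image continuous_tq

lemma isConnected_torus0 : IsConnected torus0 := by
  refine IsConnected.image ?_ _ continuous_tq.continuousOn
  exact isConnected_singleton.prod ((isConnected_Icc zero_le_one).prod (isConnected_Icc zero_le_one))

lemma mem_torus0 (x y : ℝ) : tq (0, x, y) ∈ torus0 := by
  set n : ℤ := -⌊x⌋ with hn
  set m : ℤ := -⌊y + √2 * n⌋ with hm
  refine ⟨tv (Lat.mk n m) + (0, x, y), ⟨?_, ?_, ?_⟩, ?_⟩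
  · simp [tv]
  · have h1 := Int.floor_le x
    have h2 := Int.lt_floor_add_one x
    simp only [tv, Lat.n_mk, Prod.mk_add_mk, mem_Icc, hn]
    push_cast
    constructor <;> linarith
  · have h1 := Int.floor_le (y + √2 * n)
    have h2 := Int.lt_floor_add_one (y + √2 * n)
    simp only [tv, Lat.n_mk, Lat.m_mk, Prod.mk_add_mk, mem_Icc, hm]
    push_cast
    constructor <;> linarith
  · exact tq_eq_iff.2 ⟨Lat.mk n m, rfl⟩

/-- There is no strictly convex function on a neighbourhood of the torus. -/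
theorem not_propertyOne {V : Set TN} (hV : torus0 ⊆ V) : ¬ PropertyOne hTN V := by
  rintro ⟨U, f, hUo, hVU, hf, hconv⟩
  have hmem : ∀ x y : ℝ, tq (0, x, y) ∈ U := fun x y => hVU (hV (mem_torus0 x y))
  set G : ℝ → ℝ := fun t => f (tq (0, t, 0)) with hG
  have hGc : ContDiff ℝ 2 G := by
    rw [← contMDiff_iff_contDiff]
    intro t
    have h1 : ContMDiffAt 𝓘(ℝ, E3) 𝓘(ℝ, ℝ) 2 f (tq (0, t, 0)) :=
      (hf _ (hmem t 0)).contMDiffAt (hUo.mem_nhds (hmem t 0))
    have h2 : ContMDiffAt 𝓘(ℝ, ℝ) 𝓘(ℝ, E3) 2 (fun t : ℝ => tq (0, t, 0)) t := by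
      have h3 : ContDiff ℝ ∞ (fun t : ℝ => ((0 : ℝ), t, (0 : ℝ))) := by fun_prop
      exact ((contMDiff_tq.comp h3.contMDiff).of_le two_le_infty').contMDiffAt
    exact h1.comp t h2
  have hbd : ∃ B, ∀ t, |G t| ≤ B := by
    have hfc : ContinuousOn f torus0 := hf.continuousOn.mono (hV.trans hVU)
    obtain ⟨B, hB⟩ := isCompact_torus0.exists_bound_of_continuousOn hfc
    exact ⟨B, fun t => hB _ (mem_torus0 t 0)⟩
  obtain ⟨B, hB⟩ := hbd
  refine no_bounded_convex hGc hB fun t0 => ?_
  obtain ⟨Γ, hΓ, hpos⟩ := hconv (tq (0, t0, 0)) (hmem t0 0)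
  set p := tq (0, t0, 0) with hp
  set z := extChartAt 𝓘(ℝ, E3) p p with hz
  have hqz : tq z = p := by
    have := extChartAt_to_inv (I := 𝓘(ℝ, E3)) p
    rwa [extChartAt_symm_tn] at this
  obtain ⟨g, hg⟩ := tq_eq_iff.1 hqz
  have ha : ((0 : ℝ), (1 : ℝ), (0 : ℝ)) ≠ 0 := by
    intro h
    have := congrArg (fun p : E3 => p.2.1) h
    simp at this
  have h1 := hpos (0, 1, 0) ha
  have h2 : Γ (0, 1, 0) (0, 1, 0) = 0 := by
    rw [christoffel_tn hΓ]
    simp
  rw [h2] at h1
  have h3 : der (funInChart 𝓘(ℝ, E3) f p) z 0 = 0 := by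
    unfold der
    exact map_zero _
  rw [h3, sub_zero] at h1
  have h4 : dd (funInChart 𝓘(ℝ, E3) f p) z (0, 1, 0) = deriv (deriv G) t0 := by
    unfold dd
    have h5 : (fun t : ℝ => funInChart 𝓘(ℝ, E3) f p (z + t • (0, 1, 0))) =
        fun t => G (t + t0) := by
      funext t
      unfold funInChart
      rw [Function.comp_apply, extChartAt_symm_tn]
      simp only [hG]
      congr 1
      rw [tq_eq_iff]
      refine ⟨g, ?_⟩
      rw [← hg]
      refine Prod.ext ?_ (Prod.ext ?_ ?_)
      · simp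
      · simp
        ring
      · simp
    rw [h5]
    have h6 : (deriv fun t => G (t + t0)) = fun t => deriv G (t + t0) := by
      funext t
      exact deriv_comp_add_const G t0 t
    rw [h6, deriv_comp_add_const (deriv G) t0 0, zero_add]
  rwa [h4] at h1

theorem propertyTwo (V : Set TN) : PropertyTwo hTN V := by
  intro m M _ _ _ _ _ _ g φ hφ _
  exact harmonic_const hφ

instance : ConnectedSpace TN := tq_surj.connectedSpace continuous_tq

instance : SecondCountableTopology TN :=
  ContinuousConstSMul.secondCountableTopology (Γ := Lat) (T := E3)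

end Pool.Agent.H234R3
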