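import Pool.Agent.H234R3.TorN

/-!
Harmonic maps from closed manifolds to `N` are constant.
-/

set_option autoImplicit false
set_option linter.unusedSectionVars false

open scoped Manifold ContDiff Topology Bundle
open Module Bundle Set

namespace Pool.Agent.H234R3

section Calc

variable {E : Type*} [NormedAddCommGroup E] [NormedSpace ℝ E]
  {F : Type*} [NormedAddCommGroup F] [NormedSpace ℝ F]

lemma contDiffAt_line' {n : WithTop ℕ∞} {U : E → F} {y : E} (hU : ContDiffAt ℝ n U y) (a : E) :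
    ContDiffAt ℝ n (fun t : ℝ => U (y + t • a)) 0 := by
  have h1 : ContDiffAt ℝ n (fun t : ℝ => y + t • a) 0 := by fun_prop
  have h2 : ContDiffAt ℝ n U (y + (0 : ℝ) • a) := by simpa using hU
  exact h2.comp (0 : ℝ) h1

lemma differentiableAt_deriv_of_contDiffAt' {h : ℝ → F} {t : ℝ} (hh : ContDiffAt ℝ 2 h t) :
    DifferentiableAt ℝ (deriv h) t := by
  have h1 : ContDiffAt ℝ 1 (fderiv ℝ h) t := hh.fderiv_right (by norm_num)
  have h2 : deriv h = fun s => fderiv ℝ h s 1 := by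
    funext s
    exact (fderiv_apply_one_eq_deriv).symm
  rw [h2]
  exact (h1.differentiableAt (by simp)).clm_apply (differentiableAt_const _)

lemma der_clm (L : F →L[ℝ] ℝ) {U : E → F} {y : E} (hU : DifferentiableAt ℝ U y) (a : E) :
    der (fun z => L (U z)) y a = L (der U y a) := by
  have h : HasFDerivAt (fun z => L (U z)) (L.comp (fderiv ℝ U y)) y :=
    L.hasFDerivAt.comp y hU.hasFDerivAt
  unfold der
  rw [h.fderiv]
  rfl

lemma dd_clm (L : F →L[ℝ] ℝ) {U : E → F} {y : E} (hU : ContDiffAt ℝ 2 U y) (a : E) :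
    dd (fun z => L (U z)) y a = L (dd U y a) := by
  unfold dd
  have h1 := contDiffAt_line' hU a
  have h3 : (deriv fun t : ℝ => L (U (y + t • a))) =ᶠ[𝓝 0]
      fun t => L (deriv (fun t : ℝ => U (y + t • a)) t) := by
    filter_upwards [h1.eventually (by simp)] with t k1
    have d1 := k1.differentiableAt (by simp)
    exact (L.hasFDerivAt.comp_hasDerivAt t d1.hasDerivAt).deriv
  rw [h3.deriv_eq]
  have d1 := differentiableAt_deriv_of_contDiffAt' h1
  exact (L.hasFDerivAt.comp_hasDerivAt (0 : ℝ) d1.hasDerivAt).deriv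

lemma der_congr {U V : E → F} {y : E} (h : U =ᶠ[𝓝 y] V) (a : E) : der U y a = der V y a := by
  unfold der
  rw [h.fderiv_eq]

lemma dd_congr {U V : E → F} {y : E} (h : U =ᶠ[𝓝 y] V) (a : E) : dd U y a = dd V y a := by
  unfold dd
  have hc : Filter.Tendsto (fun t : ℝ => y + t • a) (𝓝 0) (𝓝 y) := by
    have : ContinuousAt (fun t : ℝ => y + t • a) 0 := by fun_prop
    unfold ContinuousAt at this
    simpa using this
  have h1 : (fun t : ℝ => U (y + t • a)) =ᶠ[𝓝 0] fun t => V (y + t • a) := hc.eventually h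
  exact h1.deriv.deriv_eq

lemma SubAt.congr {g : E → E → E → ℝ} {U V : E → ℝ} {y : E} (hU : SubAt g U y)
    (h : V =ᶠ[𝓝 y] U) : SubAt g V y := by
  obtain ⟨Γ, e, h1, h2, h3⟩ := hU
  refine ⟨Γ, e, h1, h2, ?_⟩
  simp only [dd_congr h, der_congr h]
  exact h3

lemma SubAt.add_const {g : E → E → E → ℝ} {U : E → ℝ} {y : E} (hU : SubAt g U y) (c : ℝ) :
    SubAt g (fun z => U z + c) y := by
  obtain ⟨Γ, e, h1, h2, h3⟩ := hU
  refine ⟨Γ, e, h1, h2, ?_⟩
  have k1 : ∀ a, der (fun z => U z + c) y a = der U y a := by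
    intro a
    unfold der
    rw [fderiv_add_const]
  have k2 : ∀ a, dd (fun z => U z + c) y a = dd U y a := by
    intro a
    unfold dd
    congr 1
    funext t
    rw [deriv_add_const]
  simp only [k1, k2]
  exact h3

end Calc

section Target

/-- the three components of the Christoffel symbols of `N` -/
lemma christoffel_tn {p : TN} {z : E3} {Γ : E3 → E3 → E3}
    (hΓ : IsChristoffel (chartCoeff hTN p) z Γ) (a b : E3) :
    Γ a b = (-(Real.exp (2 * z.1) * (a.2.2 * b.2.2)), 0, a.1 * b.2.2 + b.1 * a.2.2) := by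
  have hder : ∀ b c a : E3, der (fun z => chartCoeff hTN p z b c) z a =
      2 * Real.exp (2 * z.1) * (b.2.2 * c.2.2) * a.1 := by
    intro b c a
    have h1 : (fun z => chartCoeff hTN p z b c) = fun z : E3 =>
        b.1 * c.1 + b.2.1 * c.2.1 + Real.exp (2 * z.1) * (b.2.2 * c.2.2) := by
      funext z
      rw [chartCoeff_tn, Gm_apply]
    rw [h1]
    unfold der
    have h2 : HasFDerivAt (fun z : E3 => 2 * z.1) ((2 : ℝ) • c0) z :=
      (c0.hasFDerivAt (x := z)).const_mul 2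
    have h3 := ((h2.exp.mul_const (b.2.2 * c.2.2)).const_add (b.1 * c.1 + b.2.1 * c.2.1))
    rw [h3.fderiv]
    simp [c0_apply]
    ring
  have hk : ∀ c : E3, Gm z.1 (Γ a b) c = Real.exp (2 * z.1) *
      (a.1 * (b.2.2 * c.2.2) + b.1 * (a.2.2 * c.2.2) - c.1 * (a.2.2 * b.2.2)) := by
    intro c
    have h1 := hΓ a b c
    rw [chartCoeff_tn] at h1
    rw [h1]
    unfold koszul
    rw [hder, hder, hder]
    ring
  have he := Real.exp_pos (2 * z.1)
  have e0 := hk (1, 0, 0)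
  have e1 := hk (0, 1, 0)
  have e2 := hk (0, 0, 1)
  rw [Gm_apply] at e0 e1 e2
  simp only [mul_one, mul_zero, add_zero, zero_add, zero_mul, one_mul, sub_zero] at e0 e1 e2
  refine Prod.ext ?_ (Prod.ext ?_ ?_)
  · simp only
    linarith
  · simp only
    linarith
  · simp only
    have := mul_left_cancel₀ he.ne' e2
    linarith

/-- the equations for the components of a harmonic map -/
lemma tension_tn {E : Type*} [NormedAddCommGroup E] [NormedSpace ℝ E] {g : E → E → E → ℝ} {p : TN}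
    {U : E → E3} {y : E} (hU : ContDiffAt ℝ 2 U y)
    (h : TensionZeroAt g (chartCoeff hTN p) U y) :
    ∃ (Γ : E → E → E) (e : Basis (Fin (finrank ℝ E)) ℝ E), IsChristoffel g y Γ ∧
      (∀ i j, g y (e i) (e j) = if i = j then 1 else 0) ∧
      ∑ i, (dd (fun z => c0 (U z)) y (e i) - der (fun z => c0 (U z)) y (Γ (e i) (e i))) =
        Real.exp (2 * (U y).1) * ∑ i, (der (fun z => c2 (U z)) y (e i)) ^ 2 ∧
      ∑ i, (dd (fun z => c1 (U z)) y (e i) - der (fun z => c1 (U z)) y (Γ (e i) (e i))) = 0 := by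
  obtain ⟨Γ, Γ', e, h1, h2, h3, h4⟩ := h
  have hd := hU.differentiableAt (by simp)
  refine ⟨Γ, e, h1, h3, ?_, ?_⟩
  · have h5 := congrArg c0 h4
    rw [map_sum, map_zero] at h5
    rw [Finset.mul_sum, ← sub_eq_zero, ← Finset.sum_sub_distrib]
    rw [← h5]
    refine Finset.sum_congr rfl fun i _ => ?_
    rw [dd_clm c0 hU, der_clm c0 hd, der_clm c2 hd]
    unfold nablaD
    rw [map_add, map_sub, christoffel_tn h2]
    simp only [c0_apply, c2_apply]
    ring
  · have h5 := congrArg c1 h4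
    rw [map_sum, map_zero] at h5
    rw [← h5]
    refine Finset.sum_congr rfl fun i _ => ?_
    rw [dd_clm c1 hU, der_clm c1 hd]
    unfold nablaD
    rw [map_add, map_sub, christoffel_tn h2]
    simp only [c1_apply]
    ring

end Target

section Main

variable {E : Type*} [NormedAddCommGroup E] [InnerProductSpace ℝ E] [FiniteDimensional ℝ E]
  {H : Type*} [TopologicalSpace H] {I : ModelWithCorners ℝ E H} [I.Boundaryless]
  {M : Type*} [TopologicalSpace M] [ChartedSpace H M] [IsManifold I ∞ M]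

lemma contMDiff_rN : ContMDiff 𝓘(ℝ, E3) 𝓘(ℝ, ℝ) ∞ rN := by
  intro p0
  have h : rN =ᶠ[𝓝 p0] fun p => (extChartAt 𝓘(ℝ, E3) p0 p).1 := by
    filter_upwards [extChartAt_source_mem_nhds (I := 𝓘(ℝ, E3)) p0] with p hp
    have hb : tq (extChartAt 𝓘(ℝ, E3) p0 p) = p := by
      have := (extChartAt 𝓘(ℝ, E3) p0).left_inv hp
      rwa [extChartAt_symm_tn] at this
    rw [← rN_tq, hb]
  refine ContMDiffAt.congr_of_eventuallyEq ?_ h
  have h1 : ContMDiffAt 𝓘(ℝ, E3) 𝓘(ℝ, E3) ∞ (extChartAt 𝓘(ℝ, E3) p0) p0 := contMDiffAt_extChartAt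
  have h2 : ContDiff ℝ ∞ (fun v : E3 => v.1) := contDiff_fst
  exact h2.contMDiff.contMDiffAt.comp p0 h1

/-- going back from the chart to the manifold -/
lemma eventually_chart {P : M → Prop} (x0 : M)
    (h : ∀ᶠ y in 𝓝 (extChartAt I x0 x0), P ((extChartAt I x0).symm y)) : ∀ᶠ x in 𝓝 x0, P x := by
  have h2 := (continuousAt_extChartAt (I := I) x0).eventually h
  filter_upwards [h2, extChartAt_source_mem_nhds (I := I) x0] with x hx hxs
  rwa [(extChartAt I x0).left_inv hxs] at hx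

/-- local properties of the map in charts -/
lemma local_rep {g : RMetric I M} {φ : M → TN} (hφ : HarmonicInCharts g hTN φ) (x0 : M) :
    ∀ᶠ y in 𝓝 (extChartAt I x0 x0),
      tq (inCharts I 𝓘(ℝ, E3) φ x0 (φ x0) y) = φ ((extChartAt I x0).symm y) ∧
      ContDiffAt ℝ 2 (inCharts I 𝓘(ℝ, E3) φ x0 (φ x0)) y ∧
      TensionZeroAt (chartCoeff g x0) (chartCoeff hTN (φ x0))
        (inCharts I 𝓘(ℝ, E3) φ x0 (φ x0)) y := by
  have hc : ContinuousAt (fun y => φ ((extChartAt I x0).symm y)) (extChartAt I x0 x0) := by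
    have h1 : ContinuousAt φ ((extChartAt I x0).symm (extChartAt I x0 x0)) :=
      hφ.1.continuous.continuousAt
    exact h1.comp (continuousAt_extChartAt_symm x0)
  have h2 : ∀ᶠ y in 𝓝 (extChartAt I x0 x0),
      φ ((extChartAt I x0).symm y) ∈ (extChartAt 𝓘(ℝ, E3) (φ x0)).source := by
    apply hc.eventually_mem
    rw [extChartAt_to_inv]
    exact extChartAt_source_mem_nhds (I := 𝓘(ℝ, E3)) (φ x0)
  filter_upwards [h2, extChartAt_target_mem_nhds (I := I) x0] with y hy2 hy1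
  refine ⟨?_, ?_, hφ.2 x0 (φ x0) y hy1 hy2⟩
  · have := (extChartAt 𝓘(ℝ, E3) (φ x0)).left_inv hy2
    rwa [extChartAt_symm_tn] at this
  · have k1 := contMDiffAt_symm (I := I) x0 hy1
    have k2 : ContMDiffAt 𝓘(ℝ, E3) 𝓘(ℝ, E3) ∞ (extChartAt 𝓘(ℝ, E3) (φ x0))
        (φ ((extChartAt I x0).symm y)) :=
      contMDiffAt_extChartAt' (by rwa [extChartAt_source] at hy2)
    have k3 := (k2.comp ((extChartAt I x0).symm y) hφ.1.contMDiffAt).comp y k1
    rw [contMDiffAt_iff_contDiffAt] at k3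
    exact k3.of_le two_le_infty'

/-- the first coordinate is constant -/
lemma rN_const [CompactSpace M] [ConnectedSpace M] {g : RMetric I M} {φ : M → TN}
    (hφ : HarmonicInCharts g hTN φ) : ∃ c, ∀ x, rN (φ x) = c := by
  refine smp_global g (u := fun x => rN (φ x)) (contMDiff_rN.comp hφ.1) fun x0 => ?_
  filter_upwards [local_rep hφ x0, (local_rep hφ x0).eventually_nhds] with y hy hy'
  obtain ⟨Γ, e, h1, h2, h3, -⟩ := tension_tn hy.2.1 hy.2.2
  have hs : SubAt (chartCoeff g x0) (fun z => c0 (inCharts I 𝓘(ℝ, E3) φ x0 (φ x0) z)) y := by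
    refine ⟨Γ, e, h1, h2, ?_⟩
    rw [h3]
    exact mul_nonneg (Real.exp_pos _).le (Finset.sum_nonneg fun i _ => sq_nonneg _)
  refine hs.congr ?_
  filter_upwards [hy'] with z hz
  simp only [Function.comp_apply]
  rw [← hz.1, rN_tq]
  rfl

lemma dd_const {F : Type*} [NormedAddCommGroup F] [NormedSpace ℝ F] (c : F) (y a : E) :
    dd (fun _ : E => c) y a = 0 := by
  unfold dd
  simp

lemma der_const {F : Type*} [NormedAddCommGroup F] [NormedSpace ℝ F] (c : F) (y a : E) :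
    der (fun _ : E => c) y a = 0 := by
  unfold der
  simp

/-- the third coordinate is locally constant -/
lemma y_const {g : RMetric I M} {φ : M → TN}
    (hφ : HarmonicInCharts g hTN φ) {r0 : ℝ} (hr : ∀ x, rN (φ x) = r0) (x0 : M) :
    ∃ η0 : ℝ, ∀ᶠ y in 𝓝 (extChartAt I x0 x0),
      φ ((extChartAt I x0).symm y) =
        tq (r0, c1 (inCharts I 𝓘(ℝ, E3) φ x0 (φ x0) y), η0) := by
  set U := inCharts I 𝓘(ℝ, E3) φ x0 (φ x0) with hU
  have hall : ∀ᶠ y in 𝓝 (extChartAt I x0 x0), (tq (U y) = φ ((extChartAt I x0).symm y) ∧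
      c0 (U y) = r0) ∧ DifferentiableAt ℝ (fun z => c2 (U z)) y ∧
      fderiv ℝ (fun z => c2 (U z)) y = 0 := by
    filter_upwards [local_rep hφ x0, (local_rep hφ x0).eventually_nhds] with y hy hy'
    have hc0 : ∀ z, tq (U z) = φ ((extChartAt I x0).symm z) → c0 (U z) = r0 := by
      intro z hz
      rw [c0_apply, ← rN_tq, hz, hr]
    refine ⟨⟨hy.1, hc0 y hy.1⟩, ?_, ?_⟩
    · exact c2.differentiableAt.comp y (hy.2.1.differentiableAt (by simp))
    obtain ⟨Γ, e, h1, h2, h3, -⟩ := tension_tn hy.2.1 hy.2.2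
    have hcon : (fun z => c0 (U z)) =ᶠ[𝓝 y] fun _ => r0 := by
      filter_upwards [hy'] with z hz
      exact hc0 z hz.1
    have h4 : ∑ i, (dd (fun z => c0 (U z)) y (e i) - der (fun z => c0 (U z)) y (Γ (e i) (e i))) =
        0 := by
      apply Finset.sum_eq_zero
      intro i _
      rw [dd_congr hcon, der_congr hcon, dd_const, der_const, sub_zero]
    rw [h4] at h3
    have h5 : ∑ i, (der (fun z => c2 (U z)) y (e i)) ^ 2 = 0 := by
      rcases mul_eq_zero.1 h3.symm with h | h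
      · exact absurd h (Real.exp_pos _).ne'
      · exact h
    rw [Finset.sum_eq_zero_iff_of_nonneg fun i _ => sq_nonneg _] at h5
    have h6 : ∀ i, (fderiv ℝ (fun z => c2 (U z)) y) (e i) = 0 := by
      intro i
      have := h5 i (Finset.mem_univ i)
      exact pow_eq_zero_iff (two_ne_zero) |>.1 this
    have h7 : ((fderiv ℝ (fun z => c2 (U z)) y : E →L[ℝ] ℝ) : E →ₗ[ℝ] ℝ) = 0 :=
      e.ext fun i => h6 i
    exact ContinuousLinearMap.coe_injective h7
  obtain ⟨r, hr0, hball⟩ := Metric.eventually_nhds_iff_ball.1 hall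
  refine ⟨c2 (U (extChartAt I x0 x0)), Metric.eventually_nhds_iff_ball.2 ⟨r, hr0, fun y hy => ?_⟩⟩
  have hy0 : extChartAt I x0 x0 ∈ Metric.ball (extChartAt I x0 x0) r := Metric.mem_ball_self hr0
  have hconst : c2 (U y) = c2 (U (extChartAt I x0 x0)) :=
    Metric.isOpen_ball.is_const_of_fderiv_eq_zero (convex_ball _ _).isPreconnected
      (f := fun z => c2 (U z)) (fun z hz => (hball z hz).2.1.differentiableWithinAt)
      (fun z hz => (hball z hz).2.2) hy hy0
  rw [← (hball y hy).1.1]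
  congr 1
  exact Prod.ext (hball y hy).1.2 (Prod.ext rfl hconst)

/-- the leaves -/
def leaf (r η : ℝ) : Set TN := {p | ∃ s : ℝ, tq (r, s, η) = p}

lemma mem_leaf_iff (r s η η' : ℝ) : tq (r, s, η') ∈ leaf r η ↔
    ∃ g : Lat, η' = (g.m : ℝ) + √2 * g.n + η := by
  constructor
  · rintro ⟨s', hs'⟩
    obtain ⟨g, hg⟩ := tq_eq_iff.1 hs'.symm
    exact ⟨g, (congrArg (fun p : E3 => p.2.2) hg).symm⟩
  · rintro ⟨g, hg⟩
    refine ⟨s - g.n, (tq_eq_iff.2 ⟨g, ?_⟩).symm⟩
    refine Prod.ext ?_ (Prod.ext ?_ ?_)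
    · simp [tv]
    · simp [tv]
    · simp [tv, hg]

lemma tq_shift {r s η η' : ℝ} {g : Lat} (hg : η' = (g.m : ℝ) + √2 * g.n + η) :
    tq (r, s, η') = tq (r, s - g.n, η) := by
  refine (tq_eq_iff.2 ⟨g, ?_⟩)
  refine Prod.ext ?_ (Prod.ext ?_ ?_)
  · simp [tv]
  · simp [tv]
  · simp [tv, hg]

lemma leaf_inj {r s s' η : ℝ} (h : tq (r, s, η) = tq (r, s', η)) : s = s' := by
  obtain ⟨g, hg⟩ := tq_eq_iff.1 h
  have h2 := congrArg (fun p : E3 => p.2.2) hg
  have h1 := congrArg (fun p : E3 => p.2.1) hg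
  simp only [tv, Prod.mk_add_mk] at h1 h2
  have h3 : g = 1 := lat_eq_of (by linarith)
  rw [h3] at h1
  simpa using h1.symm

/-- Harmonic maps from closed manifolds to `N` are constant. -/
theorem harmonic_const [CompactSpace M] [ConnectedSpace M] {g : RMetric I M} {φ : M → TN}
    (hφ : HarmonicInCharts g hTN φ) : ∃ p, ∀ x, φ x = p := by
  obtain ⟨r0, hr⟩ := rN_const hφ
  obtain ⟨x1⟩ : Nonempty M := inferInstance
  obtain ⟨v1, hv1⟩ := tq_surj (φ x1)
  have hv1' : v1.1 = r0 := by rw [← rN_tq, hv1, hr]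
  set η := v1.2.2 with hη
  have hx1 : φ x1 ∈ leaf r0 η := ⟨v1.2.1, by
    rw [← hv1]
    congr 1
    exact Prod.ext hv1'.symm (Prod.ext rfl rfl)⟩
  -- the set of points mapped to the leaf is clopen
  have hiff : ∀ x0, ∀ᶠ x in 𝓝 x0, (φ x ∈ leaf r0 η ↔ φ x0 ∈ leaf r0 η) := by
    intro x0
    obtain ⟨η0, h0⟩ := y_const hφ hr x0
    have h1 := h0.self_of_nhds
    rw [extChartAt_to_inv] at h1
    apply eventually_chart (I := I) x0
    filter_upwards [h0] with y hy
    rw [hy, h1, mem_leaf_iff, mem_leaf_iff]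
  have hS : IsClopen {x | φ x ∈ leaf r0 η} := by
    constructor
    · rw [← isOpen_compl_iff, isOpen_iff_mem_nhds]
      intro x0 hx0
      filter_upwards [hiff x0] with x hx
      exact fun h => hx0 (hx.1 h)
    · rw [isOpen_iff_mem_nhds]
      intro x0 hx0
      filter_upwards [hiff x0] with x hx
      exact hx.2 hx0
  have huniv := hS.eq_univ ⟨x1, hx1⟩
  have hmem : ∀ x, ∃ s : ℝ, tq (r0, s, η) = φ x := by
    intro x
    have : x ∈ {x | φ x ∈ leaf r0 η} := by rw [huniv]; trivial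
    exact this
  choose X hX using hmem
  have hloc : ∀ x0, ∃ c : ℝ, ∀ᶠ y in 𝓝 (extChartAt I x0 x0),
      (X ∘ (extChartAt I x0).symm) y = c1 (inCharts I 𝓘(ℝ, E3) φ x0 (φ x0) y) + c := by
    intro x0
    obtain ⟨η0, h0⟩ := y_const hφ hr x0
    have h1 := h0.self_of_nhds
    rw [extChartAt_to_inv] at h1
    have h2 : φ x0 ∈ leaf r0 η := ⟨X x0, hX x0⟩
    rw [h1, mem_leaf_iff] at h2
    obtain ⟨g, hg⟩ := h2
    refine ⟨-g.n, ?_⟩
    filter_upwards [h0] with y hy
    rw [tq_shift hg] at hy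
    have := leaf_inj ((hX ((extChartAt I x0).symm y)).trans hy)
    rw [Function.comp_apply, this]
    ring
  have hXs : ContMDiff I 𝓘(ℝ, ℝ) ∞ X := by
    intro x0
    obtain ⟨c, hc⟩ := hloc x0
    have h1 : X =ᶠ[𝓝 x0] fun x => c1 (extChartAt 𝓘(ℝ, E3) (φ x0) (φ x)) + c :=
      eventually_chart (I := I) (P := fun x => X x = c1 (extChartAt 𝓘(ℝ, E3) (φ x0) (φ x)) + c)
        x0 hc
    refine ContMDiffAt.congr_of_eventuallyEq ?_ h1
    have h2 : ContMDiffAt 𝓘(ℝ, E3) 𝓘(ℝ, E3) ∞ (extChartAt 𝓘(ℝ, E3) (φ x0)) (φ x0) :=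
      contMDiffAt_extChartAt
    have h3 : ContDiff ℝ ∞ (fun v : E3 => c1 v + c) := c1.contDiff.add contDiff_const
    exact h3.contMDiff.contMDiffAt.comp x0 (h2.comp x0 hφ.1.contMDiffAt)
  obtain ⟨c, hc⟩ := smp_global g hXs (fun x0 => by
    obtain ⟨c, hc⟩ := hloc x0
    filter_upwards [local_rep hφ x0, hc.eventually_nhds] with y hy hy'
    obtain ⟨Γ, e, h1, h2, -, h3⟩ := tension_tn hy.2.1 hy.2.2
    have hs : SubAt (chartCoeff g x0) (fun z => c1 (inCharts I 𝓘(ℝ, E3) φ x0 (φ x0) z)) y :=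
      ⟨Γ, e, h1, h2, h3.ge⟩
    exact (hs.add_const c).congr hy')
  exact ⟨tq (r0, c, η), fun x => by rw [← hX x, hc x]⟩

end Main

end Pool.Agent.H234R3
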