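import Pool.Agent.H234R3.SMP
import Pool.Agent.H234R3.CvxDefs
import Pool.Agent.Helper454.QuotMfd

/-!
The quotient of `ℝ × ℍ²` (coordinates `(r, x, y)`, metric `dr² + dx² + e^{2r} dy²`) by the
translations `(n, m + √2 n)` of the `(x, y)`-plane.
-/

set_option autoImplicit false
set_option linter.unusedSectionVars false

open scoped Manifold ContDiff Topology Bundle
open Module Bundle Set
open Pool.Agent.Helper454

namespace Pool.Agent.H234R3

/-- the model space, coordinates `(r, x, y)` -/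
abbrev E3 : Type := ℝ × ℝ × ℝ

/-- the deck group -/
def Lat : Type := Multiplicative (ℤ × ℤ)

noncomputable instance : CommGroup Lat := inferInstanceAs (CommGroup (Multiplicative (ℤ × ℤ)))

namespace Lat

/-- first component -/
def n (g : Lat) : ℤ := (Multiplicative.toAdd (α := ℤ × ℤ) g).1
/-- second component -/
def m (g : Lat) : ℤ := (Multiplicative.toAdd (α := ℤ × ℤ) g).2
/-- constructor -/
def mk (n m : ℤ) : Lat := Multiplicative.ofAdd (α := ℤ × ℤ) (n, m)

@[simp] lemma n_mk (n m : ℤ) : (mk n m).n = n := rfl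
@[simp] lemma m_mk (n m : ℤ) : (mk n m).m = m := rfl
@[simp] lemma n_mul (g h : Lat) : (g * h).n = g.n + h.n := rfl
@[simp] lemma m_mul (g h : Lat) : (g * h).m = g.m + h.m := rfl
@[simp] lemma n_one : (1 : Lat).n = 0 := rfl
@[simp] lemma m_one : (1 : Lat).m = 0 := rfl

lemma ext' {g h : Lat} (h1 : g.n = h.n) (h2 : g.m = h.m) : g = h := Prod.ext h1 h2

end Lat

/-- the translation vector -/
noncomputable def tv (g : Lat) : E3 := (0, (g.n : ℝ), (g.m : ℝ) + √2 * g.n)

lemma tv_one : tv 1 = 0 := by simp [tv]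

lemma tv_mul (g h : Lat) : tv (g * h) = tv g + tv h := by
  ext <;> simp [tv]
  ring

noncomputable instance : MulAction Lat E3 where
  smul g p := tv g + p
  one_smul p := by
    change tv 1 + p = p
    rw [tv_one, zero_add]
  mul_smul g h p := by
    change tv (g * h) + p = tv g + (tv h + p)
    rw [tv_mul, add_assoc]

lemma lat_smul_def (g : Lat) (p : E3) : g • p = tv g + p := rfl

lemma contDiff_lat (g : Lat) : ContDiff ℝ ∞ (fun p : E3 => g • p) := contDiff_const.add contDiff_id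

instance : ContinuousConstSMul Lat E3 := ⟨fun g => (contDiff_lat g).continuous⟩

/-- irrationality: no lattice vector on the first axis -/
lemma lat_eq_of {g : Lat} (h : (g.m : ℝ) + √2 * g.n = 0) : g = 1 := by
  have hn : g.n = 0 := by
    by_contra hn
    have h1 : √2 = ((-g.m / g.n : ℚ) : ℝ) := by
      have : (g.n : ℝ) ≠ 0 := by exact_mod_cast hn
      push_cast
      field_simp
      linarith
    exact irrational_sqrt_two ⟨_, h1.symm⟩
  have hm : g.m = 0 := by
    rw [hn] at h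
    have : (g.m : ℝ) = 0 := by simpa using h
    exact_mod_cast this
  exact Lat.ext' hn hm

lemma lat_eq_of' {g h : Lat} (hgh : (g.m : ℝ) + √2 * g.n = h.m + √2 * h.n) : g = h := by
  have h1 : g * h⁻¹ = 1 := by
    apply lat_eq_of
    have e1 : (g * h⁻¹).n = g.n - h.n := by rw [Lat.n_mul]; rfl
    have e2 : (g * h⁻¹).m = g.m - h.m := by rw [Lat.m_mul]; rfl
    rw [e1, e2]
    push_cast
    linarith
  exact mul_inv_eq_one.1 h1

instance : IsCancelSMul Lat E3 where
  left_cancel' g p p' h := by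
    have := congrArg (fun x => g⁻¹ • x) h
    simpa using this
  right_cancel' g h p hgh := by
    have h1 : tv g + p = tv h + p := hgh
    have h2 : tv g = tv h := add_right_cancel h1
    have h3 := congrArg (fun p : E3 => p.2.2) h2
    exact lat_eq_of' h3

lemma int_mem_Icc' {k : ℤ} {R : ℝ} (h : |(k : ℝ)| ≤ R) : k ∈ Set.Icc (-⌈R⌉) ⌈R⌉ := by
  have h' := abs_le.1 h
  have hc := Int.le_ceil R
  constructor
  · have : (-(⌈R⌉ : ℝ)) ≤ k := by linarith
    exact_mod_cast this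
  · have : (k : ℝ) ≤ ⌈R⌉ := by linarith
    exact_mod_cast this

instance : ProperlyDiscontinuousSMul Lat E3 where
  finite_disjoint_inter_image := by
    intro K L hK hL
    obtain ⟨C1, hC1⟩ := hK.isBounded.exists_norm_le
    obtain ⟨C2, hC2⟩ := hL.isBounded.exists_norm_le
    set C := max C1 C2 with hC
    have hcoord : ∀ p : E3, ‖p‖ ≤ C → |p.2.1| ≤ C ∧ |p.2.2| ≤ C := by
      intro p hp
      have h1 := norm_snd_le p
      have h2 := norm_fst_le p.2
      have h3 := norm_snd_le p.2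
      rw [Real.norm_eq_abs] at h2 h3
      constructor <;> linarith
    apply Set.Finite.subset (s := (fun x : ℤ × ℤ => Lat.mk x.1 x.2) ''
      (Set.Icc (-⌈2 * C⌉) ⌈2 * C⌉ ×ˢ Set.Icc (-⌈2 * C + √2 * (2 * C)⌉) ⌈2 * C + √2 * (2 * C)⌉))
    · exact ((Set.finite_Icc _ _).prod (Set.finite_Icc _ _)).image _
    · rintro g ⟨p', ⟨p, hp, hgp⟩, hp'⟩
      have hgp' : tv g + p = p' := hgp
      obtain ⟨k1, k2⟩ := hcoord p ((hC1 p hp).trans (le_max_left _ _))
      obtain ⟨l1, l2⟩ := hcoord p' ((hC2 p' hp').trans (le_max_right _ _))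
      have e1 : (g.n : ℝ) + p.2.1 = p'.2.1 := congrArg (fun p : E3 => p.2.1) hgp'
      have e2 : (g.m : ℝ) + √2 * g.n + p.2.2 = p'.2.2 := congrArg (fun p : E3 => p.2.2) hgp'
      have b1 : |(g.n : ℝ)| ≤ 2 * C := by
        rw [abs_le] at *
        constructor <;> linarith
      have b2 : |(g.m : ℝ)| ≤ 2 * C + √2 * (2 * C) := by
        have h2 : |√2 * (g.n : ℝ)| ≤ √2 * (2 * C) := by
          rw [abs_mul, abs_of_nonneg (Real.sqrt_nonneg 2)]
          exact mul_le_mul_of_nonneg_left b1 (Real.sqrt_nonneg 2)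
        rw [abs_le] at *
        constructor <;> linarith
      exact ⟨(g.n, g.m), ⟨int_mem_Icc' b1, int_mem_Icc' b2⟩, rfl⟩

/-- The manifold `N`. -/
def TN : Type := MulAction.orbitRel.Quotient Lat E3

instance : TopologicalSpace TN :=
  inferInstanceAs (TopologicalSpace (MulAction.orbitRel.Quotient Lat E3))

/-- the projection -/
noncomputable def tq : E3 → TN := Quotient.mk (MulAction.orbitRel Lat E3)

lemma tq_cov : IsQuotientCoveringMap tq Lat :=
  isQuotientCoveringMap_quotientMk_of_properlyDiscontinuousSMul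

instance : T2Space TN :=
  inferInstanceAs (T2Space (Quotient (MulAction.orbitRel Lat E3)))

noncomputable instance : ChartedSpace E3 TN := QuotMfd.cs tq_cov

instance : IsManifold 𝓘(ℝ, E3) ∞ TN := QuotMfd.isManifold tq_cov contDiff_lat

lemma tq_eq_iff {p p' : E3} : tq p = tq p' ↔ ∃ g : Lat, tv g + p' = p := by
  rw [tq_cov.apply_eq_iff_mem_orbit]
  rfl

lemma tq_surj : Function.Surjective tq := tq_cov.surjective

lemma continuous_tq : Continuous tq := tq_cov.continuous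

lemma contMDiff_tq : ContMDiff 𝓘(ℝ, E3) 𝓘(ℝ, E3) ∞ tq := QuotMfd.contMDiff_proj tq_cov contDiff_lat

lemma extChartAt_symm_tn (p : TN) : ⇑(extChartAt 𝓘(ℝ, E3) p).symm = tq :=
  QuotMfd.extChartAt_symm_coe tq_cov p

/-- in charts, the projection is a translation -/
lemma chart_tq (p : TN) (v : E3) (hv : tq v ∈ (extChartAt 𝓘(ℝ, E3) p).source) :
    ∃ g : Lat, ∀ᶠ u in 𝓝 v, extChartAt 𝓘(ℝ, E3) p (tq u) = tv g + u := by
  rw [QuotMfd.extChartAt_coe tq_cov p]
  apply QuotMfd.localInverse_eq_smul tq_cov (QuotMfd.sec tq_cov p) v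
  rw [extChartAt_source, QuotMfd.chartAt_eq tq_cov p] at hv
  exact hv

/-- the differential of the projection is the identity -/
lemma mfderiv_tq (v : E3) : (mfderiv 𝓘(ℝ, E3) 𝓘(ℝ, E3) tq v : E3 →L[ℝ] E3) =
    ContinuousLinearMap.id ℝ E3 := by
  have h1 : MDifferentiableAt 𝓘(ℝ, E3) 𝓘(ℝ, E3) tq v := contMDiff_tq.mdifferentiableAt (by simp)
  rw [h1.mfderiv]
  obtain ⟨g, hg⟩ := chart_tq (tq v) v (mem_extChartAt_source _)
  have h2 : (writtenInExtChartAt 𝓘(ℝ, E3) 𝓘(ℝ, E3) v tq) =ᶠ[𝓝 v] fun u => tv g + u := by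
    filter_upwards [hg] with u hu
    exact hu
  have h3 : HasFDerivAt (fun u : E3 => tv g + u) (ContinuousLinearMap.id ℝ E3) v :=
    (hasFDerivAt_id v).const_add (tv g)
  have h4 : HasFDerivAt (writtenInExtChartAt 𝓘(ℝ, E3) 𝓘(ℝ, E3) v tq)
    (ContinuousLinearMap.id ℝ E3) v := h3.congr_of_eventuallyEq h2
  have h5 : fderivWithin ℝ (writtenInExtChartAt 𝓘(ℝ, E3) 𝓘(ℝ, E3) v tq)
      (range 𝓘(ℝ, E3)) (extChartAt 𝓘(ℝ, E3) v v) = ContinuousLinearMap.id ℝ E3 := by
    simp only [mfld_simps, fderivWithin_univ]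
    exact h4.fderiv
  exact h5

/-- the first coordinate as a function on the quotient -/
noncomputable def rN (p : TN) : ℝ := (tq_surj.hasRightInverse.choose p).1

lemma rN_tq (v : E3) : rN (tq v) = v.1 := by
  have h := tq_surj.hasRightInverse.choose_spec (tq v)
  obtain ⟨g, hg⟩ := tq_eq_iff.1 h
  have := congrArg (fun p : E3 => p.1) hg
  have h2 : (tv g + v).1 = v.1 := by simp [tv]
  unfold rN
  rw [← this, h2]

/-- coordinate form -/
noncomputable def c0 : E3 →L[ℝ] ℝ := ContinuousLinearMap.fst ℝ ℝ (ℝ × ℝ)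
/-- coordinate form -/
noncomputable def c1 : E3 →L[ℝ] ℝ :=
  (ContinuousLinearMap.fst ℝ ℝ ℝ).comp (ContinuousLinearMap.snd ℝ ℝ (ℝ × ℝ))
/-- coordinate form -/
noncomputable def c2 : E3 →L[ℝ] ℝ :=
  (ContinuousLinearMap.snd ℝ ℝ ℝ).comp (ContinuousLinearMap.snd ℝ ℝ (ℝ × ℝ))

lemma c0_apply (a : E3) : c0 a = a.1 := rfl
lemma c1_apply (a : E3) : c1 a = a.2.1 := rfl
lemma c2_apply (a : E3) : c2 a = a.2.2 := rfl

/-- the scalar product with the coefficients `1, 1, e^{2r}` -/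
noncomputable def Gm (r : ℝ) : E3 →L[ℝ] E3 →L[ℝ] ℝ :=
  c0.smulRight c0 + c1.smulRight c1 + Real.exp (2 * r) • c2.smulRight c2

lemma Gm_apply (r : ℝ) (a b : E3) :
    Gm r a b = a.1 * b.1 + a.2.1 * b.2.1 + Real.exp (2 * r) * (a.2.2 * b.2.2) := by
  simp [Gm, c0_apply, c1_apply, c2_apply]

/-- shortcut instance -/
noncomputable local instance instBilE1 : NormedAddCommGroup (E3 →L[ℝ] E3 →L[ℝ] ℝ) := inferInstance

/-- shortcut instance -/
noncomputable local instance instBilE2 : NormedSpace ℝ (E3 →L[ℝ] E3 →L[ℝ] ℝ) := inferInstance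

lemma contDiff_Gm : ContDiff ℝ ∞ Gm := by
  unfold Gm
  apply ContDiff.add contDiff_const
  have h1 : ContDiff ℝ ∞ (fun x : ℝ => Real.exp (2 * x)) :=
    Real.contDiff_exp.comp (contDiff_const.mul contDiff_id)
  exact h1.smul contDiff_const

lemma Gm_symm (r : ℝ) (a b : E3) : Gm r a b = Gm r b a := by
  rw [Gm_apply, Gm_apply]
  ring

lemma Gm_pos (r : ℝ) {a : E3} (ha : a ≠ 0) : 0 < Gm r a a := by
  rw [Gm_apply]
  have he := Real.exp_pos (2 * r)
  by_contra hcon
  push Not at hcon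
  have h0 := mul_self_nonneg a.1
  have h1 := mul_self_nonneg a.2.1
  have h2 : 0 ≤ Real.exp (2 * r) * (a.2.2 * a.2.2) := mul_nonneg he.le (mul_self_nonneg _)
  have e0 : a.1 = 0 := by
    have : a.1 * a.1 = 0 := by linarith
    exact mul_self_eq_zero.1 this
  have e1 : a.2.1 = 0 := by
    have : a.2.1 * a.2.1 = 0 := by linarith
    exact mul_self_eq_zero.1 this
  have e2 : a.2.2 = 0 := by
    have : Real.exp (2 * r) * (a.2.2 * a.2.2) = 0 := by linarith
    rcases mul_eq_zero.1 this with h | h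
    · exact absurd h he.ne'
    · exact mul_self_eq_zero.1 h
  exact ha (Prod.ext e0 (Prod.ext e1 e2))

set_option backward.isDefEq.respectTransparency false in
lemma contMDiff_hTN :
    ContMDiff 𝓘(ℝ, E3) (𝓘(ℝ, E3).prod 𝓘(ℝ, E3 →L[ℝ] E3 →L[ℝ] ℝ)) ∞
      (fun p : TN => TotalSpace.mk' (E3 →L[ℝ] E3 →L[ℝ] ℝ)
        (E := fun p : TN => TangentSpace 𝓘(ℝ, E3) p →L[ℝ] TangentSpace 𝓘(ℝ, E3) p →L[ℝ] ℝ) p
        (Gm (rN p))) := by
  intro p0
  rw [contMDiffAt_section]
  have hkey : (fun p : TN => (trivializationAt (E3 →L[ℝ] E3 →L[ℝ] ℝ)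
        (fun p : TN => TangentSpace 𝓘(ℝ, E3) p →L[ℝ] TangentSpace 𝓘(ℝ, E3) p →L[ℝ] ℝ) p0
        (TotalSpace.mk' (E3 →L[ℝ] E3 →L[ℝ] ℝ) p (Gm (rN p)))).2) =ᶠ[𝓝 p0]
      fun p : TN => Gm (extChartAt 𝓘(ℝ, E3) p0 p).1 := by
    filter_upwards [extChartAt_source_mem_nhds (I := 𝓘(ℝ, E3)) p0] with p hp
    have hb : tq (extChartAt 𝓘(ℝ, E3) p0 p) = p := by
      have := (extChartAt 𝓘(ℝ, E3) p0).left_inv hp
      rwa [extChartAt_symm_tn] at this
    have hr : rN p = (extChartAt 𝓘(ℝ, E3) p0 p).1 := by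
      rw [← rN_tq, hb]
    refine ContinuousLinearMap.ext fun a => ContinuousLinearMap.ext fun b => ?_
    refine (triv_form_eq (I := 𝓘(ℝ, E3)) (M := TN) (fun p => Gm (rN p)) hp a b).trans ?_
    have h1 : ∀ c : E3, (mfderiv 𝓘(ℝ, E3) 𝓘(ℝ, E3) (extChartAt 𝓘(ℝ, E3) p0).symm
        (extChartAt 𝓘(ℝ, E3) p0 p) : E3 →L[ℝ] E3) c = c := by
      intro c
      rw [extChartAt_symm_tn, mfderiv_tq]
      rfl
    have h2 := h1 a
    have h3 := h1 b
    rw [← hr]
    exact congrArg₂ (fun u v : E3 => Gm (rN p) u v) h2 h3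
  refine ContMDiffAt.congr_of_eventuallyEq ?_ hkey
  have h1 : ContMDiffAt 𝓘(ℝ, E3) 𝓘(ℝ, E3) ∞ (extChartAt 𝓘(ℝ, E3) p0) p0 := contMDiffAt_extChartAt
  have h2 : ContDiff ℝ ∞ (fun v : E3 => Gm v.1) := contDiff_Gm.comp contDiff_fst
  exact h2.contMDiff.contMDiffAt.comp p0 h1

/-- The Riemannian metric of `N`. -/
noncomputable def hTN : RMetric 𝓘(ℝ, E3) TN where
  inner p := (Gm (rN p) : E3 →L[ℝ] E3 →L[ℝ] ℝ)
  symm p v w := Gm_symm (rN p) v w
  pos p _ hv := Gm_pos (rN p) hv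
  isVonNBounded p := Pool.Agent.H839R2.Geo.isVonNBounded_of_pos (E := E3) (Gm (rN p))
    fun _ hv => Gm_pos (rN p) hv
  contMDiff := contMDiff_hTN

lemma dchart_tn (p : TN) (z a : E3) : dchart 𝓘(ℝ, E3) p z a = a := by
  unfold dchart
  rw [extChartAt_symm_tn, mfderiv_tq]
  rfl

/-- the coefficients of the metric in any chart -/
lemma chartCoeff_tn (p : TN) (z a b : E3) : chartCoeff hTN p z a b = Gm z.1 a b := by
  unfold chartCoeff
  rw [dchart_tn, dchart_tn, extChartAt_symm_tn]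
  have : hTN.form (tq z) = Gm (rN (tq z)) := rfl
  rw [this, rN_tq]

end Pool.Agent.H234R3
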