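import Pool.Agent.H234R3.Geod

set_option autoImplicit false

open scoped Manifold ContDiff Topology RealInnerProductSpace
open Module Metric

namespace Pool.Agent.H234R3

/-- The Euclidean space of the real `(k + 1) × (k + 1)` matrices. -/
abbrev Mat (k : ℕ) : Type := EuclideanSpace ℝ (Fin (k + 1) × Fin (k + 1))

instance factE (k : ℕ) : Fact (finrank ℝ (EuclideanSpace ℝ (Fin (k + 1))) = k + 1) :=
  ⟨finrank_euclideanSpace_fin⟩

instance factMat (k : ℕ) : Fact (finrank ℝ (Mat k) = (k * k + 2 * k) + 1) := ⟨by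
  rw [finrank_euclideanSpace, Fintype.card_prod, Fintype.card_fin]; ring⟩

/-- the normalising constant -/
noncomputable def cc (k : ℕ) : ℝ := √((k + 1) / k)

/-- the tensor product, as a bilinear map -/
noncomputable def outer (k : ℕ) : EuclideanSpace ℝ (Fin (k + 1)) →L[ℝ]
    EuclideanSpace ℝ (Fin (k + 1)) →L[ℝ] Mat k :=
  LinearMap.toContinuousLinearMap
    { toFun := fun x => LinearMap.toContinuousLinearMap
        { toFun := fun y => WithLp.toLp 2 fun p => cc k * (x p.1 * y p.2)
          map_add' := fun y z => by ext p; simp [mul_add]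
          map_smul' := fun r y => by ext p; simp; ring }
      map_add' := fun x z => by ext y p; simp [add_mul, mul_add]
      map_smul' := fun r x => by ext y p; simp; ring }

lemma outer_apply (k : ℕ) (x y : EuclideanSpace ℝ (Fin (k + 1))) (p : Fin (k + 1) × Fin (k + 1)) :
    outer k x y p = cc k * (x p.1 * y p.2) := rfl

/-- a multiple of the identity matrix -/
noncomputable def idm (k : ℕ) : Mat k := WithLp.toLp 2 fun p => if p.1 = p.2 then cc k else 0

lemma idm_apply (k : ℕ) (p : Fin (k + 1) × Fin (k + 1)) :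
    idm k p = if p.1 = p.2 then cc k else 0 := rfl

/-- The Veronese map into the matrices. -/
noncomputable def ver (k : ℕ) (x : EuclideanSpace ℝ (Fin (k + 1))) : Mat k :=
  outer k x x - ((k : ℝ) + 1)⁻¹ • idm k

lemma ver_apply (k : ℕ) (x : EuclideanSpace ℝ (Fin (k + 1))) (i j : Fin (k + 1)) :
    ver k x (i, j) = cc k * (x i * x j - if i = j then ((k : ℝ) + 1)⁻¹ else 0) := by
  simp only [ver, PiLp.sub_apply, PiLp.smul_apply, outer_apply, idm_apply, smul_eq_mul]
  split_ifs <;> ring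

lemma cc_sq {k : ℕ} (hk : 1 ≤ k) : cc k ^ 2 = (k + 1) / k := by
  unfold cc
  rw [Real.sq_sqrt (by positivity)]

lemma norm_ver {k : ℕ} (hk : 1 ≤ k) (x : EuclideanSpace ℝ (Fin (k + 1))) (hx : ‖x‖ = 1) :
    ‖ver k x‖ = 1 := by
  have hs : ∑ i, x i ^ 2 = 1 := by
    have := EuclideanSpace.norm_sq_eq x
    rw [hx] at this
    simpa using this.symm
  have hk' : (k : ℝ) ≠ 0 := by positivity
  have h1 : ‖ver k x‖ ^ 2 = 1 := by
    rw [EuclideanSpace.norm_sq_eq]
    simp only [Real.norm_eq_abs, sq_abs]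
    rw [Fintype.sum_prod_type]
    have h2 : ∀ i j, (ver k x (i, j)) ^ 2 = cc k ^ 2 * (x i ^ 2 * x j ^ 2) -
        (if i = j then 2 * cc k ^ 2 * ((k : ℝ) + 1)⁻¹ * (x i ^ 2) - cc k ^ 2 * (((k : ℝ) + 1)⁻¹) ^ 2 else 0) := by
      intro i j
      rw [ver_apply]
      split_ifs with h
      · subst h; ring
      · ring
    simp only [h2, Finset.sum_sub_distrib, Finset.sum_ite_eq, Finset.mem_univ, if_true]
    have h3 : ∑ i, ∑ j, cc k ^ 2 * (x i ^ 2 * x j ^ 2) = cc k ^ 2 := by
      have : ∀ i, ∑ j, cc k ^ 2 * (x i ^ 2 * x j ^ 2) = cc k ^ 2 * x i ^ 2 := by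
        intro i
        rw [← Finset.mul_sum, ← Finset.mul_sum, hs, mul_one]
      simp only [this]
      rw [← Finset.mul_sum, hs, mul_one]
    have h4 : ∑ i, 2 * cc k ^ 2 * ((k : ℝ) + 1)⁻¹ * (x i ^ 2) = 2 * cc k ^ 2 * ((k : ℝ) + 1)⁻¹ := by
      rw [← Finset.mul_sum, hs, mul_one]
    rw [h3, h4, Finset.sum_const, Finset.card_univ, Fintype.card_fin, nsmul_eq_mul, cc_sq hk]
    push_cast
    field_simp
    ring
  have h2 : 0 ≤ ‖ver k x‖ := norm_nonneg _
  nlinarith

lemma contDiff_ver (k : ℕ) {m : WithTop ℕ∞} : ContDiff ℝ m (ver k) := by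
  unfold ver
  exact ((outer k).contDiff.clm_apply contDiff_id).sub contDiff_const

section

variable {W : Type*} [NormedAddCommGroup W] [InnerProductSpace ℝ W] {k n : ℕ}
  [Fact (finrank ℝ W = n + 1)]

/-- The Veronese map between unit spheres. -/
noncomputable def verS (T : Mat k →ₗᵢ[ℝ] W) (hk : 1 ≤ k)
    (x : sphere (0 : EuclideanSpace ℝ (Fin (k + 1))) 1) : sphere (0 : W) 1 :=
  ⟨T (ver k x), by
    rw [mem_sphere_zero_iff_norm, T.norm_map]
    exact norm_ver hk x (by simp)⟩

lemma contMDiff_verS (T : Mat k →ₗᵢ[ℝ] W) (hk : 1 ≤ k) :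
    ContMDiff (𝓡 k) (𝓡 n) ∞ (verS T hk) := by
  have h1 : ContMDiff (𝓡 k) 𝓘(ℝ, W) ∞
      (fun x : sphere (0 : EuclideanSpace ℝ (Fin (k + 1))) 1 => T (ver k x)) :=
    (T.contDiff.comp (contDiff_ver k)).contMDiff.comp (contMDiff_coe_sphere (m := ∞))
  exact h1.codRestrict_sphere _

end

/-- second derivative of a linear image -/
lemma deriv2_clm {X Y : Type*} [NormedAddCommGroup X] [NormedSpace ℝ X] [NormedAddCommGroup Y]
    [NormedSpace ℝ Y] (L : X →L[ℝ] Y) {f : ℝ → X} {t : ℝ} (hf : ContDiffAt ℝ 2 f t) :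
    deriv (deriv fun s => L (f s)) t = L (deriv (deriv f) t) := by
  have hd : ∀ᶠ s in 𝓝 t, DifferentiableAt ℝ f s := by
    filter_upwards [hf.eventually (by simp)] with s hs
    exact hs.differentiableAt (by simp)
  have hd2 : DifferentiableAt ℝ (deriv f) t := by
    have h1 : ContDiffAt ℝ 1 (fderiv ℝ f) t := hf.fderiv_right (by norm_num)
    have h2 := h1.differentiableAt (by simp)
    have h3 : deriv f = fun s => fderiv ℝ f s 1 := by
      funext s; exact fderiv_apply_one_eq_deriv.symm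
    rw [h3]
    exact h2.clm_apply (differentiableAt_const _)
  have h1 : deriv (fun s => L (f s)) =ᶠ[𝓝 t] fun s => L (deriv f s) := by
    filter_upwards [hd] with s hs
    exact (L.hasFDerivAt.comp_hasDerivAt s hs.hasDerivAt).deriv
  rw [h1.deriv_eq]
  exact (L.hasFDerivAt.comp_hasDerivAt t hd2.hasDerivAt).deriv

/-- second derivative of the Veronese map along a curve -/
lemma ver_curve (k : ℕ) {σ : ℝ → EuclideanSpace ℝ (Fin (k + 1))} {t : ℝ}
    (hσ : ContDiffAt ℝ 2 σ t) :
    deriv (deriv fun s => ver k (σ s)) t =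
      outer k (deriv (deriv σ) t) (σ t) + (2 : ℝ) • outer k (deriv σ t) (deriv σ t) +
        outer k (σ t) (deriv (deriv σ) t) := by
  have hd : ∀ᶠ s in 𝓝 t, DifferentiableAt ℝ σ s := by
    filter_upwards [hσ.eventually (by simp)] with s hs
    exact hs.differentiableAt (by simp)
  have hd2 : DifferentiableAt ℝ (deriv σ) t := by
    have h1 : ContDiffAt ℝ 1 (fderiv ℝ σ) t := hσ.fderiv_right (by norm_num)
    have h2 := h1.differentiableAt (by simp)
    have h3 : deriv σ = fun s => fderiv ℝ σ s 1 := by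
      funext s; exact fderiv_apply_one_eq_deriv.symm
    rw [h3]
    exact h2.clm_apply (differentiableAt_const _)
  have hB : ∀ {u v : ℝ → EuclideanSpace ℝ (Fin (k + 1))} {s : ℝ}, DifferentiableAt ℝ u s →
      DifferentiableAt ℝ v s → HasDerivAt (fun s => outer k (u s) (v s))
        (outer k (deriv u s) (v s) + outer k (u s) (deriv v s)) s := by
    intro u v s hu hv
    have h1 : HasDerivAt (fun s => outer k (u s)) (outer k (deriv u s)) s :=
      (outer k).hasFDerivAt.comp_hasDerivAt s hu.hasDerivAt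
    exact h1.clm_apply hv.hasDerivAt
  have h1 : deriv (fun s => ver k (σ s)) =ᶠ[𝓝 t]
      fun s => outer k (deriv σ s) (σ s) + outer k (σ s) (deriv σ s) := by
    filter_upwards [hd] with s hs
    exact ((hB hs hs).sub_const _).deriv
  rw [h1.deriv_eq]
  have h2 := (hB hd2 hd.self_of_nhds).add (hB hd.self_of_nhds hd2)
  refine h2.deriv.trans ?_
  module

/-- Parseval identity for the frame `x, J e₁, …, J e_k` -/
lemma frame_sum {k : ℕ} (x : EuclideanSpace ℝ (Fin (k + 1))) (hx : ‖x‖ = 1)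
    (J : EuclideanSpace ℝ (Fin k) →ₗᵢ[ℝ] EuclideanSpace ℝ (Fin (k + 1)))
    (hJ : ∀ w, ⟪J w, x⟫ = 0) :
    ∑ i, outer k (J (EuclideanSpace.basisFun (Fin k) ℝ i)) (J (EuclideanSpace.basisFun (Fin k) ℝ i)) =
      idm k - outer k x x := by
  let v : Fin (k + 1) → EuclideanSpace ℝ (Fin (k + 1)) :=
    Fin.cons x (fun i => J (EuclideanSpace.basisFun (Fin k) ℝ i))
  have hv : Orthonormal ℝ v := by
    rw [orthonormal_iff_ite]
    intro i j
    refine Fin.cases ?_ (fun i => ?_) i <;> refine Fin.cases ?_ (fun j => ?_) j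
    · simp [v, hx]
    · have : ⟪x, J (EuclideanSpace.basisFun (Fin k) ℝ j)⟫ = 0 := by
        rw [real_inner_comm]; exact hJ _
      simp only [v, Fin.cons_zero, Fin.cons_succ, this]
      rw [if_neg (Fin.succ_ne_zero j).symm]
    · simp only [v, Fin.cons_zero, Fin.cons_succ, hJ]
      rw [if_neg (Fin.succ_ne_zero i)]
    · simp only [v, Fin.cons_succ, J.inner_map_map, Fin.succ_inj]
      exact orthonormal_iff_ite.1 (EuclideanSpace.basisFun (Fin k) ℝ).orthonormal i j
  let b := basisOfOrthonormalOfCardEqFinrank hv (by simp)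
  have hb : Orthonormal ℝ b := by
    rw [coe_basisOfOrthonormalOfCardEqFinrank]; exact hv
  let B := b.toOrthonormalBasis hb
  have hB : ∀ i, B i = v i := by
    intro i
    simp [B, b]
  ext p
  have h1 := B.sum_inner_mul_inner (EuclideanSpace.single p.1 (1 : ℝ)) (EuclideanSpace.single p.2 (1 : ℝ))
  simp only [hB, Fin.sum_univ_succ] at h1
  simp only [v, Fin.cons_zero, Fin.cons_succ, EuclideanSpace.inner_single_left,
    EuclideanSpace.inner_single_right] at h1
  simp only [map_one, one_mul, conj_trivial] at h1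
  simp only [PiLp.sub_apply, WithLp.ofLp_sum, Finset.sum_apply, outer_apply, idm_apply]
  rw [← Finset.mul_sum]
  have h2 : (EuclideanSpace.single p.1 (1 : ℝ) : EuclideanSpace ℝ (Fin (k + 1))) p.2 =
      if p.1 = p.2 then 1 else 0 := by
    by_cases h : p.1 = p.2
    · rw [if_pos h, h]; simp
    · rw [if_neg h]
      have h' : p.2 ≠ p.1 := fun e => h e.symm
      simp [h']
  rw [h2] at h1
  have h3 : (∑ i, (J (EuclideanSpace.basisFun (Fin k) ℝ i)) p.1 *
      (J (EuclideanSpace.basisFun (Fin k) ℝ i)) p.2) = (if p.1 = p.2 then 1 else 0) - x p.1 * x p.2 := by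
    linarith
  rw [h3]
  split_ifs <;> ring

end Pool.Agent.H234R3
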