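import Pool.Agent.H234R3.Ver

set_option autoImplicit false

open scoped Manifold ContDiff Topology RealInnerProductSpace
open Module Metric
open Pool.Agent.H839R2.Geo (chart_sphere sph contDiff_sph sph_zero)

namespace Pool.Agent.H234R3

/-- the chart expression of a smooth map is smooth -/
lemma contDiffAt_local {E : Type*} [NormedAddCommGroup E] [NormedSpace ℝ E]
    {H : Type*} [TopologicalSpace H] {I : ModelWithCorners ℝ E H} [I.Boundaryless]
    {M : Type*} [TopologicalSpace M] [ChartedSpace H M] [IsManifold I ∞ M]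
    {E' : Type*} [NormedAddCommGroup E'] [NormedSpace ℝ E']
    {H' : Type*} [TopologicalSpace H'] {J : ModelWithCorners ℝ E' H'}
    {N : Type*} [TopologicalSpace N] [ChartedSpace H' N] [IsManifold J ∞ N]
    {φ : M → N} (hφ : ContMDiff I J ∞ φ) (x : M) :
    ContDiffAt ℝ ∞ (inCharts I J φ x (φ x)) (extChartAt I x x) := by
  have h := (contMDiffAt_iff.1 (hφ x)).2
  rw [I.range_eq_univ, contDiffWithinAt_univ] at h
  exact h

theorem verS_harmonic {W : Type*} [NormedAddCommGroup W] [InnerProductSpace ℝ W] {k n : ℕ}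
    [Fact (finrank ℝ W = n + 1)] (T : Mat k →ₗᵢ[ℝ] W) (hk : 1 ≤ k) :
    IsHarmonic (round (EuclideanSpace ℝ (Fin (k + 1))) k) (round W n) (verS T hk) := by
  refine ⟨contMDiff_verS T hk, fun x => ?_⟩
  have hU := contDiffAt_local (contMDiff_verS (n := n) T hk) x
  obtain ⟨htx, hzx, J, ho, hs⟩ := chart_sphere (V := EuclideanSpace ℝ (Fin (k + 1))) (n := k) x
  obtain ⟨-, hzp, J', ho', hs'⟩ := chart_sphere (V := W) (n := n) (verS T hk x)
  set U := inCharts (𝓡 k) (𝓡 n) (verS T hk) x (verS T hk x) with hUdef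
  have hxx : (extChartAt (𝓡 k) x).symm 0 = x := by
    rw [← hzx]; exact extChartAt_to_inv x
  have hU0 : U 0 = 0 := by
    simp only [hUdef, inCharts, Function.comp_apply, hxx, hzp]
  have hxn : ‖(x : EuclideanSpace ℝ (Fin (k + 1)))‖ = 1 := by simp
  have h8 : ((verS T hk x : sphere (0 : W) 1) : W) =
      T (ver k (x : EuclideanSpace ℝ (Fin (k + 1)))) := rfl
  rw [hzx] at hU ⊢
  let e : Basis (Fin (finrank ℝ (EuclideanSpace ℝ (Fin k)))) ℝ (EuclideanSpace ℝ (Fin k)) :=
    (EuclideanSpace.basisFun (Fin k) ℝ).toBasis.reindex (finCongr finrank_euclideanSpace_fin.symm)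
  refine ⟨fun _ _ => 0, fun _ _ => 0, e, christoffel_round x, ?_, ?_, ?_⟩
  · rw [hU0]
    exact christoffel_round (verS T hk x)
  · intro i j
    rw [coord_round_zero]
    have h1 := orthonormal_iff_ite.1 (EuclideanSpace.basisFun (Fin k) ℝ).orthonormal
      ((finCongr finrank_euclideanSpace_fin.symm).symm i)
      ((finCongr finrank_euclideanSpace_fin.symm).symm j)
    simp only [e, Basis.reindex_apply, OrthonormalBasis.coe_toBasis]
    rw [h1]
    simp only [EmbeddingLike.apply_eq_iff_eq]
  · have hnab : ∀ a, nablaD (fun _ _ => 0) (fun _ _ => 0) U 0 a = dd U 0 a := by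
      intro a
      simp [nablaD, der]
    simp only [hnab]
    have hkey : ∀ a : EuclideanSpace ℝ (Fin k), ∃ r : ℝ,
        J' (dd U 0 a) = T ((2 : ℝ) • outer k (J a) (J a) - (2 * ‖a‖ ^ 2) • outer k x x) +
          r • T (ver k (x : EuclideanSpace ℝ (Fin (k + 1)))) := by
      intro a
      have hline : ContDiff ℝ ∞ (fun t : ℝ => (0 : EuclideanSpace ℝ (Fin k)) + t • a) := by
        fun_prop
      have hc : ContDiffAt ℝ ∞ (fun t : ℝ => U (0 + t • a)) 0 := by
        have h1 : ContDiffAt ℝ ∞ U ((fun t : ℝ => (0 : EuclideanSpace ℝ (Fin k)) + t • a) 0) := by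
          simpa using hU
        exact ContDiffAt.comp (g := U) (f := fun t : ℝ => (0 : EuclideanSpace ℝ (Fin k)) + t • a)
          (0 : ℝ) h1 hline.contDiffAt
      have hc0 : (fun t : ℝ => U (0 + t • a)) 0 = 0 := by simp [hU0]
      have hβ : ∀ᶠ t in 𝓝 (0 : ℝ),
          T (ver k (sph (x : EuclideanSpace ℝ (Fin (k + 1))) J (t • a))) =
          sph (verS T hk x : W) J' ((fun t : ℝ => U (0 + t • a)) t) := by
        have hcont : Continuous (fun t : ℝ => verS T hk ((extChartAt (𝓡 k) x).symm (0 + t • a))) := by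
          have h1 : Continuous (extChartAt (𝓡 k) x).symm := by
            rw [← continuousOn_univ, ← htx]
            exact continuousOn_extChartAt_symm x
          exact (contMDiff_verS (n := n) T hk).continuous.comp (h1.comp hline.continuous)
        have h1 : ∀ᶠ t in 𝓝 (0 : ℝ), verS T hk ((extChartAt (𝓡 k) x).symm (0 + t • a)) ∈
            (extChartAt (𝓡 n) (verS T hk x)).source := by
          apply hcont.continuousAt.preimage_mem_nhds
          rw [zero_smul, add_zero, hxx]
          exact extChartAt_source_mem_nhds _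
        filter_upwards [h1] with t h2
        rw [← hs', ← hs]
        show T (ver k _) = (((extChartAt (𝓡 n) (verS T hk x)).symm
          (extChartAt (𝓡 n) (verS T hk x)
            (verS T hk ((extChartAt (𝓡 k) x).symm (0 + t • a))))) : W)
        rw [(extChartAt (𝓡 n) (verS T hk x)).left_inv h2, zero_add]
        rfl
      obtain ⟨-, h2⟩ := sph_curve (verS T hk x : W) J' (hc.of_le two_le_infty) hc0 hβ
      have hl : ContDiff ℝ 2 (fun t : ℝ => t • a) := by fun_prop
      have hlz : (fun t : ℝ => t • a) 0 = 0 := zero_smul ℝ a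
      have hld : ∀ t : ℝ, deriv (fun t : ℝ => t • a) t = a := by
        intro t
        have := (hasDerivAt_id t).smul_const a
        simpa using this.deriv
      obtain ⟨h3, h4⟩ := sph_curve (x : EuclideanSpace ℝ (Fin (k + 1))) J hl.contDiffAt hlz
        (β := fun t => sph (x : EuclideanSpace ℝ (Fin (k + 1))) J (t • a))
        (Filter.Eventually.of_forall fun t => rfl)
      have hld2 : deriv (deriv fun t : ℝ => t • a) 0 = 0 := by
        rw [funext hld]; exact deriv_const _ _
      rw [hld] at h3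
      rw [hld2, hld, map_zero, zero_sub] at h4
      have hσ : ContDiffAt ℝ 2 (fun t : ℝ => sph (x : EuclideanSpace ℝ (Fin (k + 1))) J (t • a)) 0 :=
        ((contDiff_sph _ J).comp hl).contDiffAt
      have h5 := ver_curve k hσ
      rw [h3, h4] at h5
      have h6 : sph (x : EuclideanSpace ℝ (Fin (k + 1))) J ((0 : ℝ) • a) = x := by
        rw [zero_smul, sph_zero]
      simp only [h6] at h5
      have h10 : deriv (deriv fun t : ℝ =>
          T (ver k (sph (x : EuclideanSpace ℝ (Fin (k + 1))) J (t • a)))) 0 =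
          T (deriv (deriv fun t : ℝ =>
            ver k (sph (x : EuclideanSpace ℝ (Fin (k + 1))) J (t • a))) 0) :=
        deriv2_clm T.toContinuousLinearMap ((contDiff_ver k).contDiffAt.comp (0 : ℝ) hσ)
      rw [h10, h5, h8] at h2
      refine ⟨‖deriv (fun t : ℝ => U (0 + t • a)) 0‖ ^ 2, ?_⟩
      have h7 : J' (dd U 0 a) = J' (deriv (deriv fun t : ℝ => U (0 + t • a)) 0) := rfl
      have h9 := sub_eq_iff_eq_add.1 h2.symm
      rw [h7, h9]
      congr 2
      simp only [map_neg, map_smul, _root_.neg_apply, _root_.smul_apply]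
      module
    choose r hr using hkey
    have hsum : ∀ f : EuclideanSpace ℝ (Fin k) → W,
        ∑ i, f (e i) = ∑ i, f (EuclideanSpace.basisFun (Fin k) ℝ i) := by
      intro f
      refine Fintype.sum_equiv (finCongr finrank_euclideanSpace_fin) _ _ fun i => ?_
      simp only [e, Basis.reindex_apply, OrthonormalBasis.coe_toBasis]
      rfl
    have h1 : J' (∑ i, dd U 0 (e i)) = (-(2 * ((k : ℝ) + 1)) +
        ∑ i, r (EuclideanSpace.basisFun (Fin k) ℝ i)) •
          T (ver k (x : EuclideanSpace ℝ (Fin (k + 1)))) := by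
      rw [map_sum, hsum (fun a => J' (dd U 0 a))]
      simp only [hr]
      rw [Finset.sum_add_distrib, ← map_sum, Finset.sum_sub_distrib, ← Finset.smul_sum,
        ← Finset.sum_smul, ← Finset.sum_smul, frame_sum _ hxn J ho, add_smul]
      have h4 : (-(2 * ((k : ℝ) + 1))) • T (ver k (x : EuclideanSpace ℝ (Fin (k + 1)))) =
        T ((-(2 * ((k : ℝ) + 1))) • ver k (x : EuclideanSpace ℝ (Fin (k + 1)))) :=
        (map_smul T _ _).symm
      rw [h4]
      congr 2
      have h2 : ∑ i : Fin k, 2 * ‖EuclideanSpace.basisFun (Fin k) ℝ i‖ ^ 2 = 2 * (k : ℝ) := by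
        simp [mul_comm]
      rw [h2, ver]
      have hk' : ((k : ℝ) + 1) ≠ 0 := by positivity
      have h3 : (-(2 * ((k : ℝ) + 1))) • (((k : ℝ) + 1)⁻¹ • idm k) = (-2 : ℝ) • idm k := by
        rw [smul_smul]; congr 1; field_simp
      rw [smul_sub, smul_sub, h3]
      module
    have h2 : ⟪J' (∑ i, dd U 0 (e i)), J' (∑ i, dd U 0 (e i))⟫ = 0 := by
      nth_rewrite 2 [h1]
      rw [inner_smul_right]
      have h3 := ho' (∑ i, dd U 0 (e i))
      rw [h8] at h3
      rw [h3, mul_zero]
    rw [J'.inner_map_map, inner_self_eq_zero] at h2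
    exact h2

/-- The trace of the cube of a matrix. -/
noncomputable def trCube {k : ℕ} (A : Mat k) : ℝ :=
  Matrix.trace ((Matrix.of fun i j => A (i, j)) ^ 3)

lemma continuous_trCube (k : ℕ) : Continuous (trCube (k := k)) := by
  unfold trCube
  have h1 : Continuous (fun A : Mat k => (Matrix.of fun i j => A (i, j))) := by
    refine continuous_matrix fun i j => ?_
    exact (EuclideanSpace.proj (𝕜 := ℝ) (i, j)).continuous
  have h2 : (fun A : Mat k => Matrix.trace ((Matrix.of fun i j => A (i, j)) ^ 3)) =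
      fun A : Mat k => Matrix.trace ((Matrix.of fun i j => A (i, j)) *
        (Matrix.of fun i j => A (i, j)) * (Matrix.of fun i j => A (i, j))) := by
    funext A
    rw [pow_succ, pow_two]
  rw [h2]
  exact ((h1.matrix_mul h1).matrix_mul h1).matrix_trace

lemma trCube_neg {k : ℕ} (A : Mat k) : trCube (-A) = -trCube A := by
  unfold trCube
  have h1 : (Matrix.of fun i j => (-A) (i, j)) = -(Matrix.of fun i j => A (i, j)) := by
    ext i j; simp
  rw [h1, Odd.neg_pow (by decide), Matrix.trace_neg]

lemma trCube_ver {k : ℕ} (hk : 2 ≤ k) (x : EuclideanSpace ℝ (Fin (k + 1))) (hx : ‖x‖ = 1) :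
    0 < trCube (ver k x) := by
  have hs : ∑ i, x i * x i = 1 := by
    have := EuclideanSpace.norm_sq_eq x
    rw [hx] at this
    simp only [Real.norm_eq_abs, sq_abs, one_pow] at this
    rw [this]
    exact Finset.sum_congr rfl fun i _ => by ring
  set s : ℝ := ((k : ℝ) + 1)⁻¹ with hsdef
  let P : Matrix (Fin (k + 1)) (Fin (k + 1)) ℝ := Matrix.vecMulVec (fun i => x i) (fun i => x i)
  have hPP : P * P = P := by
    ext i j
    simp only [P, Matrix.mul_apply, Matrix.vecMulVec_apply]
    have : ∀ l, x i * x l * (x l * x j) = x i * x j * (x l * x l) := fun l => by ring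
    simp only [this]
    rw [← Finset.mul_sum, hs, mul_one]
  have hPt : Matrix.trace P = 1 := by
    simp only [P, Matrix.trace, Matrix.diag, Matrix.vecMulVec_apply]
    exact hs
  have h1 : (Matrix.of fun i j => ver k x (i, j)) = cc k • (P - s • (1 : Matrix _ _ ℝ)) := by
    ext i j
    rw [Matrix.of_apply, ver_apply]
    simp only [P, Matrix.smul_apply, Matrix.sub_apply, Matrix.vecMulVec_apply, Matrix.one_apply,
      smul_eq_mul, mul_ite, mul_one, mul_zero]
    rfl
  have h2 : (P - s • (1 : Matrix _ _ ℝ)) ^ 3 = (1 - 3 * s + 3 * s ^ 2) • P -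
      (s ^ 3) • (1 : Matrix _ _ ℝ) := by
    have e1 : (P - s • (1 : Matrix _ _ ℝ)) * (P - s • (1 : Matrix _ _ ℝ)) =
        (1 - 2 * s) • P + (s ^ 2) • (1 : Matrix _ _ ℝ) := by
      simp only [sub_mul, mul_sub, hPP, smul_mul_assoc, mul_smul_comm, one_mul, mul_one]
      module
    rw [pow_succ, pow_two, e1]
    simp only [add_mul, mul_sub, smul_mul_assoc, mul_smul_comm, one_mul, mul_one, hPP]
    module
  have hcc : 0 < cc k := by
    unfold cc
    have : (0 : ℝ) < k := by exact_mod_cast (by omega : 0 < k)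
    positivity
  have hk' : (2 : ℝ) ≤ k := by exact_mod_cast hk
  have hspos : 0 < s := by positivity
  have hs2 : s * ((k : ℝ) + 1) = 1 := by
    rw [hsdef]; field_simp
  have hs3 : s ≤ 1 / 3 := by nlinarith
  unfold trCube
  rw [h1, smul_pow, h2, Matrix.trace_smul, Matrix.trace_sub, Matrix.trace_smul, Matrix.trace_smul,
    hPt, Matrix.trace_one, Fintype.card_fin]
  simp only [smul_eq_mul, mul_one]
  push_cast
  have h3 : (1 - 3 * s + 3 * s ^ 2) - s ^ 3 * ((k : ℝ) + 1) = (1 - s) * (1 - 2 * s) := by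
    linear_combination (-(s ^ 2)) * hs2
  rw [h3]
  have h4 : 0 < (1 - s) * (1 - 2 * s) := mul_pos (by linarith) (by linarith)
  positivity

end Pool.Agent.H234R3
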